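import Mathlib

/-!
# The forcing relation

A sentence of the forcing language of a preordered set `P` of conditions is represented by the
set of the conditions which force it. Negation, conjunction and universal quantification are the
primitive connectives, with their usual forcing clauses; the other connectives are defined from
them classically. A name for a subset of a ground model set `X` is a map sending `x : X` to the
set of the conditions attached to `x`.
-/

namespace Pool.Agent.Helper126.Lam.Forc

open Cardinal

universe u v w

section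

variable {P : Type u} [Preorder P]

/-- `p` forces `not φ` iff no `q ≤ p` forces `φ`. -/
def fnot (φ : Set P) : Set P := {p | ∀ q ≤ p, q ∉ φ}

/-- `p` forces `φ and ψ` iff it forces both. -/
def fand (φ ψ : Set P) : Set P := {p | p ∈ φ ∧ p ∈ ψ}

/-- `p` forces `for all i, φ i` iff it forces every `φ i`. -/
def fall {ι : Sort v} (φ : ι → Set P) : Set P := {p | ∀ i, p ∈ φ i}

/-- `φ implies ψ` is `not (φ and not ψ)`. -/
def fimp (φ ψ : Set P) : Set P := fnot (fand φ (fnot ψ))

/-- `there is i with φ i` is `not for all i, not φ i`. -/
def fex {ι : Sort v} (φ : ι → Set P) : Set P := fnot (fall fun i => fnot (φ i))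

/-- An absolute statement about ground model objects. -/
def fground (h : Prop) : Set P := {_p | h}

/-- `p` forces that the generic filter meets the set `N` of conditions:
the set of `r` lying below some member of `N` is dense below `p`. -/
def meets (N : Set P) : Set P := {p | ∀ q ≤ p, ∃ r ≤ q, ∃ s ∈ N, r ≤ s}

/-- The relation named by `R` is a function from `X` to `Y`. -/
def IsFun {X : Type v} {Y : Type w} (R : X → Y → Set P) : Set P :=
  fand (fall fun x => fex fun y => meets (R x y))
    (fall fun x => fall fun y => fall fun y' =>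
      fimp (fand (meets (R x y)) (meets (R x y'))) (fground (y = y')))

end

/-! ### General facts -/

section

variable {P : Type u} [Preorder P]

theorem mem_fex {ι : Sort v} {φ : ι → Set P} {p : P} :
    p ∈ fex φ ↔ ∀ q ≤ p, ∃ r ≤ q, ∃ i, r ∈ φ i := by
  simp only [fex, fnot, fall, Set.mem_ofPred_eq, not_forall, not_not]
  constructor
  · intro h q hq
    obtain ⟨i, r, hr, h'⟩ := h q hq
    exact ⟨r, hr, i, h'⟩
  · intro h q hq
    obtain ⟨r, hr, i, h'⟩ := h q hq
    exact ⟨i, r, hr, h'⟩

theorem mem_fimp {φ ψ : Set P} {p : P} :
    p ∈ fimp φ ψ ↔ ∀ q ≤ p, q ∈ φ → ∃ r ≤ q, r ∈ ψ := by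
  simp only [fimp, fnot, fand, Set.mem_ofPred_eq, not_and, not_forall, not_not]
  constructor
  · intro h q hq h'
    obtain ⟨r, hr, h''⟩ := h q hq h'
    exact ⟨r, hr, h''⟩
  · intro h q hq h'
    obtain ⟨r, hr, h''⟩ := h q hq h'
    exact ⟨r, hr, h''⟩

theorem mem_fand {φ ψ : Set P} {p : P} : p ∈ fand φ ψ ↔ p ∈ φ ∧ p ∈ ψ := Iff.rfl

theorem mem_fall {ι : Sort v} {φ : ι → Set P} {p : P} : p ∈ fall φ ↔ ∀ i, p ∈ φ i := Iff.rfl

theorem mem_fground {h : Prop} {p : P} : p ∈ fground (P := P) h ↔ h := Iff.rfl

/-- The statement `φ` is preserved by passing to stronger conditions. -/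
def Down (φ : Set P) : Prop := ∀ p ∈ φ, ∀ q ≤ p, q ∈ φ

theorem down_fnot (φ : Set P) : Down (fnot φ) :=
  fun _ hp _ hq r hr => hp r (hr.trans hq)

theorem down_fand {φ ψ : Set P} (h : Down φ) (h' : Down ψ) : Down (fand φ ψ) :=
  fun _ hp _ hq => ⟨h _ hp.1 _ hq, h' _ hp.2 _ hq⟩

theorem down_fall {ι : Sort v} {φ : ι → Set P} (h : ∀ i, Down (φ i)) : Down (fall φ) :=
  fun _ hp _ hq i => h i _ (hp i) _ hq

theorem down_fex {ι : Sort v} (φ : ι → Set P) : Down (fex φ) := down_fnot _

theorem down_fimp (φ ψ : Set P) : Down (fimp φ ψ) := down_fnot _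

theorem down_fground (h : Prop) : Down (fground (P := P) h) := fun _ hp _ _ => hp

theorem down_meets (N : Set P) : Down (meets N) :=
  fun _ hp _ hq r hr => hp r (hr.trans hq)

theorem down_IsFun {X : Type v} {Y : Type w} (R : X → Y → Set P) : Down (IsFun R) :=
  down_fand (down_fall fun _ => down_fex _)
    (down_fall fun _ => down_fall fun _ => down_fall fun _ => down_fimp _ _)

theorem mem_fex_of_mem {ι : Sort v} {φ : ι → Set P} {p : P} (i : ι) (hd : Down (φ i))
    (h : p ∈ φ i) : p ∈ fex φ :=
  mem_fex.2 fun q hq => ⟨q, le_rfl, i, hd _ h _ hq⟩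

theorem meets_of_mem {N : Set P} {p : P} (h : p ∈ N) : p ∈ meets N :=
  fun q hq => ⟨q, le_rfl, p, h, hq⟩

theorem meets_of_le {N : Set P} {p s : P} (hs : s ∈ N) (h : p ≤ s) : p ∈ meets N :=
  fun q hq => ⟨q, le_rfl, s, hs, hq.trans h⟩

/-- for a set closed downwards -/
theorem exists_of_meets {N : Set P} (hN : Down N) {p : P} (h : p ∈ meets N) :
    ∃ q ≤ p, q ∈ N := by
  obtain ⟨r, hr, s, hs, hle⟩ := h p le_rfl
  exact ⟨r, hr, hN s hs r hle⟩

theorem IsFun.total {X : Type v} {Y : Type w} {R : X → Y → Set P} {p : P} (h : p ∈ IsFun R)
    (x : X) : ∃ q ≤ p, ∃ y, q ∈ meets (R x y) := mem_fex.1 (h.1 x) p le_rfl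

theorem IsFun.unique {X : Type v} {Y : Type w} {R : X → Y → Set P} {p : P} (h : p ∈ IsFun R)
    {x : X} {y y' : Y} (h1 : p ∈ meets (R x y)) (h2 : p ∈ meets (R x y')) : y = y' := by
  obtain ⟨r, _, hr⟩ := mem_fimp.1 (h.2 x y y') p le_rfl ⟨h1, h2⟩
  exact hr

end

/-! ### Statements about trees and ladder system colourings in the extension -/

/-- The set of countable ordinals (of the ground model). -/
abbrev K1 : Type := (ℵ_ 1).ord.ToType

section

variable {P : Type u} [Preorder P]

/-- `G` names a ladder system colouring `f`: `G α ξ k` says that `ξ ∈ C α` and `f α ξ = k`. For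
every limit ordinal `α < ω₁` the set `C α` is a cofinal subset of `α` with finite initial
segments (so its order type is `ω`), and `f α` is a function from `C α` to `ω`. -/
def IsLadderColouring (G : K1 → K1 → ℕ → Set P) : Set P :=
  fall fun α => fall fun _ : Order.IsSuccLimit α =>
    fand
      (fand (fall fun ξ => fall fun k => fimp (meets (G α ξ k)) (fground (ξ < α)))
        (fall fun ξ => fall fun k => fall fun k' =>
          fimp (fand (meets (G α ξ k)) (meets (G α ξ k'))) (fground (k = k'))))
      (fand (fall fun η => fall fun _ : η < α => fex fun ξ => fex fun k =>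
          fand (fground (η ≤ ξ)) (meets (G α ξ k)))
        (fall fun η => fall fun _ : η < α => fex fun B : Finset K1 =>
          fall fun ξ => fall fun k =>
            fimp (fand (fground (ξ < η)) (meets (G α ξ k))) (fground (ξ ∈ B))))

/-- `lt` and `ht` name a tree of height `ω₁` whose set of nodes is `ω₁`, with the height function
`ht`: the order is transitive and increases the height, every node of height `α` has exactly one
predecessor of each height `ξ < α`, and there are nodes of every height `α < ω₁`. -/
def IsTree (lt : K1 → K1 → Set P) (ht : K1 → K1 → Set P) : Set P :=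
  fand
    (fand (IsFun ht)
      (fall fun x => fall fun y => fall fun z =>
        fimp (fand (meets (lt x y)) (meets (lt y z))) (meets (lt x z))))
    (fand
      (fand
        (fall fun x => fall fun y => fall fun ξ => fall fun η =>
          fimp (fand (meets (lt x y)) (fand (meets (ht x ξ)) (meets (ht y η))))
            (fground (ξ < η)))
        (fall fun x => fall fun y => fall fun z => fall fun ξ =>
          fimp (fand (fand (meets (lt x z)) (meets (lt y z)))
            (fand (meets (ht x ξ)) (meets (ht y ξ)))) (fground (x = y))))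
      (fand
        (fall fun y => fall fun ξ => fall fun η =>
          fimp (fand (meets (ht y η)) (fground (ξ < η)))
            (fex fun x => fand (meets (lt x y)) (meets (ht x ξ))))
        (fall fun ξ => fex fun x => meets (ht x ξ))))

/-- The levels are countable: for each `ξ` some possibly undefined function from `ω` takes as values
all nodes of height `ξ`. -/
def CountableLevels (ht : K1 → K1 → Set P) : Set P :=
  fall fun ξ => fex fun E : ℕ → K1 → Set P =>
    fand
      (fall fun n => fall fun x => fall fun y =>
        fimp (fand (meets (E n x)) (meets (E n y))) (fground (x = y)))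
      (fall fun x => fimp (meets (ht x ξ)) (fex fun n => meets (E n x)))

/-- There is no uncountable branch: no chain contains nodes of every height below `ω₁`. -/
def NoBranch (lt : K1 → K1 → Set P) (ht : K1 → K1 → Set P) : Set P :=
  fnot (fex fun B : K1 → Set P =>
    fand
      (fall fun x => fall fun y => fall fun _ : x ≠ y =>
        fimp (fand (meets (B x)) (meets (B y)))
          (fnot (fand (fnot (meets (lt x y))) (fnot (meets (lt y x))))))
      (fall fun ξ => fex fun x => fand (meets (B x)) (meets (ht x ξ))))

/-- Every node has extensions of every larger height. -/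
def Pruned (lt : K1 → K1 → Set P) (ht : K1 → K1 → Set P) : Set P :=
  fall fun x => fall fun ξ => fall fun η =>
    fimp (fand (meets (ht x ξ)) (fground (ξ < η)))
      (fex fun y => fand (meets (lt x y)) (meets (ht y η)))

/-- An Aronszajn tree. -/
def IsAronszajn (lt : K1 → K1 → Set P) (ht : K1 → K1 → Set P) : Set P :=
  fand (IsTree lt ht) (fand (CountableLevels ht) (NoBranch lt ht))

/-- The function `φ` from the tree to `ω` uniformizes the ladder system colouring `G`: for every
node `s` of limit height `α` and all but finitely many `ξ ∈ C α`, the value of `φ` at the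
predecessor `t` of `s` of height `ξ` is `f α ξ`. -/
def Uniformizes (lt : K1 → K1 → Set P) (ht : K1 → K1 → Set P) (G : K1 → K1 → ℕ → Set P)
    (φ : K1 → ℕ → Set P) : Set P :=
  fand (IsFun φ)
    (fall fun s => fall fun α => fall fun _ : Order.IsSuccLimit α =>
      fimp (meets (ht s α))
        (fex fun B : Finset K1 => fall fun ξ => fall fun _ : ξ ∉ B => fall fun k => fall fun t =>
          fimp (fand (meets (G α ξ k)) (fand (meets (lt t s)) (meets (ht t ξ))))
            (meets (φ t k))))

/-- There is an Aronszajn tree on which every member of the family `F` has a full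
uniformization. -/
def NotBad {E : Type v} (F : E → K1 → K1 → ℕ → Set P) : Set P :=
  fex fun lt : K1 → K1 → Set P => fex fun ht : K1 → K1 → Set P =>
    fand (fand (IsAronszajn lt ht) (Pruned lt ht))
      (fall fun e => fex fun φ : K1 → ℕ → Set P => Uniformizes lt ht (F e) φ)

end

end Pool.Agent.Helper126.Lam.Forc
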