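import Mathlib
import Pool.Agent.Helper126.Lam.Forc

/-!
# A finite support iteration adding special trees and uniformizing functions
-/

namespace Pool.Agent.Helper126.Lam.Poset

open Cardinal Pool.Agent.Helper126.Lam.Forc

set_option linter.unusedSectionVars false

abbrev Node : Type := K1 × ℕ

inductive Tag (L : Type) : Type
  | nd : Node → Tag L
  | ph : L → Node → Tag L
  | pm : L → Node → Tag L
  | co : K1 → K1 → Tag L

abbrev Val : Type := Finset Node × ℕ

@[ext] structure Rep (J L : Type) : Type where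
  f : J → Tag L → Option Val
  fin : {x : J × Tag L | f x.1 x.2 ≠ none}.Finite

variable {J L : Type}

/-- data of an initial stage: valid conditions and the order -/
structure Dat (J L : Type) : Type where
  V : Set (Rep J L)
  le : Rep J L → Rep J L → Prop

/-- compatibility at an initial stage -/
def cc (D : Dat J L) (q e : Rep J L) : Prop := ∃ r ∈ D.V, D.le r q ∧ D.le r e

/-- the name `N` of a colouring is functional and locally finite -/
def OKn (N : K1 → K1 → ℕ → Set (Rep J L)) (D : Dat J L) : Prop :=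
  (∀ α ξ k k', ∀ r ∈ D.V, ∀ e ∈ N α ξ k, ∀ e' ∈ N α ξ k', D.le r e → D.le r e' → k = k') ∧
  (∀ α η, η < α → ∀ r ∈ D.V, ∃ r' ∈ D.V, D.le r' r ∧ ∃ B : Finset K1, ∀ ξ < η, ξ ∉ B →
    ∀ k, ∀ e ∈ N α ξ k, ¬ cc D r' e)

variable (g : L → K1 → K1 → ℕ → Set (Rep J L))

/-- the order at coordinate `j` -/
def LLe (D : Dat J L) (j : J) (q p : Rep J L) : Prop :=
  (∀ x F a, p.f j (.nd x) = some (F, a) → ∃ F', q.f j (.nd x) = some (F', a) ∧ F ⊆ F' ∧
    ∀ t ∈ F', t ∉ F → p.f j (.nd t) = none ∧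
      ∀ β, p.f j (.pm β x) ≠ none → ∀ k, ∀ e ∈ g β x.1 t.1 k, cc D q e →
        ∃ v, q.f j (.ph β t) = some v ∧ v.2 = k) ∧
  (∀ τ, (∀ x, τ ≠ .nd x) → ∀ v, p.f j τ = some v → q.f j τ = some v)

open Classical in
/-- validity at coordinate `j` -/
def LVal (D : Dat J L) (j : J) (p : Rep J L) : Prop :=
  (∀ x F a, p.f j (.nd x) = some (F, a) → ∀ y ∈ F, y.1 < x.1 ∧
    (∃ b, p.f j (.nd y) = some (F.filter (fun z => z.1 < y.1), b) ∧ b ≠ a) ∧
      ∀ z ∈ F, z.1 = y.1 → z = y) ∧
  (∀ β s, p.f j (.pm β s) ≠ none → OKn (g β) D ∧ ∃ F a, p.f j (.nd s) = some (F, a) ∧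
    ∀ r ∈ F, ∀ ξ < r.1, (∀ t ∈ F, t.1 ≠ ξ) → ∀ k, ∀ e ∈ g β s.1 ξ k, ¬ cc D p e) ∧
  (∀ τ, (∀ x, τ ≠ .nd x) → ∀ v, p.f j τ = some v → v.1 = ∅)

variable [LinearOrder J] [WellFoundedLT J]

/-- trivial from `j` on -/
def Below (r : Rep J L) (j : J) : Prop := ∀ i, j ≤ i → ∀ τ, r.f i τ = none

/-- the data of the stages, by recursion -/
noncomputable def Data : J → Dat J L :=
  WellFoundedLT.fix (motive := fun _ : J => Dat J L) fun j D =>
    ⟨{r | Below r j ∧ ∀ i, ∀ h : i < j, LVal g (D i h) i r},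
      fun r q => ∀ i, ∀ h : i < j, LLe g (D i h) i r q⟩

def Vl (i : J) (r : Rep J L) : Prop := LVal g (Data g i) i r
def Le (i : J) (r q : Rep J L) : Prop := LLe g (Data g i) i r q
def CC (i : J) (q e : Rep J L) : Prop := cc (Data g i) q e

theorem Data_eq (j : J) : Data g j = ⟨{r | Below r j ∧ ∀ i, i < j → Vl g i r},
    fun r q => ∀ i, i < j → Le g i r q⟩ := by
  rw [Data, WellFoundedLT.fix_eq]
  rfl

theorem mem_V {j : J} {r : Rep J L} : r ∈ (Data g j).V ↔ Below r j ∧ ∀ i, i < j → Vl g i r := by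
  rw [Data_eq]; rfl

theorem le_D {j : J} {r q : Rep J L} : (Data g j).le r q ↔ ∀ i, i < j → Le g i r q := by
  rw [Data_eq]

theorem CC_iff {j : J} {q e : Rep J L} : CC g j q e ↔ ∃ r, Below r j ∧ (∀ i, i < j → Vl g i r) ∧
    (∀ i, i < j → Le g i r q) ∧ (∀ i, i < j → Le g i r e) := by
  unfold CC cc
  simp only [mem_V, le_D]
  constructor
  · rintro ⟨r, ⟨h1, h2⟩, h3, h4⟩; exact ⟨r, h1, h2, h3, h4⟩
  · rintro ⟨r, h1, h2, h3, h4⟩; exact ⟨r, ⟨h1, h2⟩, h3, h4⟩

theorem Le_iff {i : J} {q p : Rep J L} : Le g i q p ↔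
    (∀ x F a, p.f i (.nd x) = some (F, a) → ∃ F', q.f i (.nd x) = some (F', a) ∧ F ⊆ F' ∧
    ∀ t ∈ F', t ∉ F → p.f i (.nd t) = none ∧
      ∀ β, p.f i (.pm β x) ≠ none → ∀ k, ∀ e ∈ g β x.1 t.1 k, CC g i q e →
        ∃ v, q.f i (.ph β t) = some v ∧ v.2 = k) ∧
  (∀ τ, (∀ x, τ ≠ .nd x) → ∀ v, p.f i τ = some v → q.f i τ = some v) := Iff.rfl

/-- the statement that the order at `i` only depends on coordinates up to `i` -/
theorem Le_congr_right {i : J} {q p p' : Rep J L} (h : p.f i = p'.f i) : Le g i q p ↔ Le g i q p' := by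
  simp only [Le_iff, h]

theorem CC_mono_of {i : J} {q q' e : Rep J L}
    (h : ∀ r, (∀ i', i' < i → Le g i' r q') → (∀ i', i' < i → Le g i' r q)) (hc : CC g i q' e) :
    CC g i q e := by
  rw [CC_iff] at hc ⊢
  obtain ⟨r, h1, h2, h3, h4⟩ := hc
  exact ⟨r, h1, h2, h r h3, h4⟩

theorem CC_congr {i : J} {q q' e : Rep J L} (h : ∀ i', i' < i → q.f i' = q'.f i') :
    CC g i q e ↔ CC g i q' e :=
  ⟨CC_mono_of g fun _ hr i' hi' => (Le_congr_right g (h i' hi')).1 (hr i' hi'),
   CC_mono_of g fun _ hr i' hi' => (Le_congr_right g (h i' hi')).2 (hr i' hi')⟩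

theorem Le_trans_of {i : J} {r q p : Rep J L} (hc : ∀ e, CC g i r e → CC g i q e)
    (h1 : Le g i r q) (h2 : Le g i q p) : Le g i r p := by
  rw [Le_iff] at h1 h2 ⊢
  refine ⟨fun x F a hx => ?_, fun τ hτ v hv => h1.2 τ hτ v (h2.2 τ hτ v hv)⟩
  obtain ⟨F', hF', hsub, h3⟩ := h2.1 x F a hx
  obtain ⟨F'', hF'', hsub', h4⟩ := h1.1 x F' a hF'
  refine ⟨F'', hF'', hsub.trans hsub', fun t ht htF => ?_⟩
  by_cases htF' : t ∈ F'
  · obtain ⟨h5, h6⟩ := h3 t htF' htF
    refine ⟨h5, fun β hβ k e he hce => ?_⟩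
    obtain ⟨v, hv, hvk⟩ := h6 β hβ k e he (hc e hce)
    exact ⟨v, h1.2 _ (by simp) v hv, hvk⟩
  · obtain ⟨h5, h6⟩ := h4 t ht htF'
    refine ⟨?_, fun β hβ k e he hce => ?_⟩
    · by_contra hcon
      obtain ⟨⟨G, b⟩, hG⟩ := Option.ne_none_iff_exists'.1 hcon
      obtain ⟨G', hG', _⟩ := h2.1 t G b hG
      rw [hG'] at h5
      exact absurd h5 (by simp)
    · refine h6 β ?_ k e he hce
      obtain ⟨v, hv⟩ := Option.ne_none_iff_exists'.1 hβ
      rw [h2.2 _ (by simp) v hv]
      simp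

theorem CC_mono {i : J} {q q' e : Rep J L} (h : ∀ i', i' < i → Le g i' q' q)
    (hc : CC g i q' e) : CC g i q e := by
  induction i using WellFoundedLT.induction generalizing q q' e with
  | ind i IH =>
    refine CC_mono_of g (fun r hr i' hi' => ?_) hc
    refine Le_trans_of g (fun e he => ?_) (hr i' hi') (h i' hi')
    exact IH i' hi' (fun i'' h'' => hr i'' (h''.trans hi')) he

theorem Le_trans {i : J} {r q p : Rep J L} (hb : ∀ i', i' < i → Le g i' r q)
    (h1 : Le g i r q) (h2 : Le g i q p) : Le g i r p :=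
  Le_trans_of g (fun _ he => CC_mono g hb he) h1 h2

/-- if the coordinates agree then nothing has to be checked -/
theorem Le_of_eq {i : J} {q p : Rep J L} (h : q.f i = p.f i) : Le g i q p := by
  rw [Le_iff]
  refine ⟨fun x F a hx => ⟨F, by rw [h, hx], subset_rfl, fun t ht h' => absurd ht h'⟩,
    fun τ _ v hv => by rw [h, hv]⟩

theorem Le_of_none {i : J} {q p : Rep J L} (h : ∀ τ, p.f i τ = none) : Le g i q p := by
  rw [Le_iff]
  refine ⟨fun x F a hx => ?_, fun τ _ v hv => ?_⟩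
  · rw [h] at hx; exact absurd hx (by simp)
  · rw [h] at hv; exact absurd hv (by simp)

theorem Vl_congr {i : J} {q p : Rep J L} (h : q.f i = p.f i) (hc : ∀ e, CC g i q e → CC g i p e)
    (hp : Vl g i p) : Vl g i q := by
  classical
  obtain ⟨h1, h2, h3⟩ := hp
  refine ⟨fun x F a hx => ?_, fun β s hs => ?_, fun τ hτ v hv => h3 τ hτ v (by rw [← h, hv])⟩
  · rw [h] at hx ⊢
    exact h1 x F a hx
  · rw [h] at hs
    obtain ⟨h4, F, a, h5, h6⟩ := h2 β s hs
    refine ⟨h4, F, a, by rw [h, h5], fun r hr ξ hξ ht k e he hce => ?_⟩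
    exact h6 r hr ξ hξ ht k e he (hc e hce)

/-! ### The poset -/

/-- the conditions -/
def Cd : Type := {r : Rep J L // ∀ i, Vl g i r}

variable {g}

instance : Preorder (Cd g) where
  le r q := ∀ i, Le g i r.1 q.1
  le_refl r i := Le_of_eq g rfl
  le_trans a b c hab hbc i := Le_trans g (fun i' _ => hab i') (hab i) (hbc i)

theorem le_iff {r q : Cd g} : r ≤ q ↔ ∀ i, Le g i r.1 q.1 := Iff.rfl

/-- the trivial condition -/
def oneR (J L : Type) : Rep J L where
  f _ _ := none
  fin := by simp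

theorem Vl_none {i : J} {q : Rep J L} (h : ∀ τ, q.f i τ = none) : Vl g i q := by
  classical
  refine ⟨fun x F a hx => ?_, fun β s hs => ?_, fun τ _ v hv => ?_⟩
  · rw [h] at hx; exact absurd hx (by simp)
  · exact absurd (h _) hs
  · rw [h] at hv; exact absurd hv (by simp)

instance : Nonempty (Cd g) := ⟨⟨oneR J L, fun _ => Vl_none fun _ => rfl⟩⟩

open Classical in
/-- `q` below `j` and `p` from `j` on -/
noncomputable def glue (q p : Rep J L) (j : J) : Rep J L where
  f i τ := if i < j then q.f i τ else p.f i τ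
  fin := by
    refine (q.fin.union p.fin).subset fun x hx => ?_
    by_cases h : x.1 < j
    · left; simpa [h] using hx
    · right; simpa [h] using hx

noncomputable def res (p : Rep J L) (j : J) : Rep J L := glue p (oneR J L) j

theorem glue_lt {q p : Rep J L} {j i : J} (h : i < j) : (glue q p j).f i = q.f i := by
  funext τ; exact if_pos h

theorem glue_ge {q p : Rep J L} {j i : J} (h : j ≤ i) : (glue q p j).f i = p.f i := by
  funext τ; exact if_neg (not_lt.2 h)

theorem res_lt {p : Rep J L} {j i : J} (h : i < j) : (res p j).f i = p.f i := glue_lt h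

theorem res_ge {p : Rep J L} {j i : J} (h : j ≤ i) (τ : Tag L) : (res p j).f i τ = none := by
  rw [res, glue_ge h]; rfl

theorem below_res (p : Rep J L) (j : J) : Below (res p j) j := fun _ h τ => res_ge h τ

theorem Vl_res {p : Rep J L} (hp : ∀ i, Vl g i p) (j : J) : ∀ i, Vl g i (res p j) := by
  intro i
  by_cases h : i < j
  · refine Vl_congr g (res_lt h) (fun e he => ?_) (hp i)
    exact (CC_congr g fun i' h' => res_lt (h'.trans h)).1 he
  · exact Vl_none fun τ => res_ge (not_lt.1 h) τ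

/-- restriction -/
noncomputable def resP (p : Cd g) (j : J) : Cd g := ⟨res p.1 j, Vl_res p.2 j⟩

theorem le_res (p : Rep J L) (j : J) (i : J) : Le g i p (res p j) := by
  by_cases h : i < j
  · exact Le_of_eq g (res_lt h).symm
  · exact Le_of_none g fun τ => res_ge (not_lt.1 h) τ

theorem le_resP (p : Cd g) (j : J) : p ≤ resP p j := fun i => le_res p.1 j i

theorem Le_glue {q p : Rep J L} {j : J} (h : ∀ i, i < j → Le g i q p) (i : J) :
    Le g i (glue q p j) p := by
  induction i using WellFoundedLT.induction with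
  | ind i IH =>
    by_cases hi : i < j
    · refine Le_trans g (q := q) (fun i' h' => ?_) ?_ (h i hi)
      · exact Le_of_eq g (glue_lt (h'.trans hi))
      · exact Le_of_eq g (glue_lt hi)
    · exact Le_of_eq g (glue_ge (not_lt.1 hi))

theorem Vl_glue {q p : Rep J L} {j : J} (hq : ∀ i, i < j → Vl g i q) (hp : ∀ i, Vl g i p)
    (h : ∀ i, i < j → Le g i q p) (i : J) : Vl g i (glue q p j) := by
  by_cases hi : i < j
  · refine Vl_congr g (glue_lt hi) (fun e he => ?_) (hq i hi)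
    exact (CC_congr g fun i' h' => glue_lt (h'.trans hi)).1 he
  · refine Vl_congr g (glue_ge (not_lt.1 hi)) (fun e he => ?_) (hp i)
    exact CC_mono g (fun i' _ => Le_glue h i') he

theorem Le_glue_left {q p : Rep J L} {j : J} (hq : Below q j) (i : J) : Le g i (glue q p j) q := by
  by_cases hi : i < j
  · exact Le_of_eq g (glue_lt hi)
  · exact Le_of_none g fun τ => hq i (not_lt.1 hi) τ

/-- `q` below `j` and `p` from `j` on -/
noncomputable def glueP (q p : Cd g) (j : J) (h : ∀ i, i < j → Le g i q.1 p.1) : Cd g :=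
  ⟨glue q.1 p.1 j, Vl_glue (fun i _ => q.2 i) p.2 h⟩

theorem glueP_le {q p : Cd g} {j : J} (h : ∀ i, i < j → Le g i q.1 p.1) : glueP q p j h ≤ p :=
  Le_glue h

theorem glueP_le_left {q p : Cd g} {j : J} (h : ∀ i, i < j → Le g i q.1 p.1)
    (hq : Below q.1 j) : glueP q p j h ≤ q := Le_glue_left hq

theorem Le_res_left {r p : Rep J L} {i j : J} (h : Le g i r p) (hi : i < j) :
    Le g i (res r j) p := by
  refine Le_trans_of g (q := r) (fun e he => ?_) (Le_of_eq g (res_lt hi)) h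
  exact (CC_congr g fun i' h' => res_lt (h'.trans hi)).1 he

/-- a condition below `j` compatible with `p`: a common extension which is `p` from `j` on -/
theorem exists_glue {p q r : Cd g} {j : J} (hq : Below q.1 j) (h1 : r ≤ q) (h2 : ∀ i, i < j → Le g i r.1 p.1) :
    ∃ s : Cd g, s ≤ q ∧ s ≤ p ∧ (∀ i, j ≤ i → s.1.f i = p.1.f i) ∧ s ≤ resP r j := by
  have h3 : ∀ i, i < j → Le g i (resP r j).1 p.1 := fun i hi => Le_res_left (h2 i hi) hi
  refine ⟨glueP (resP r j) p j h3, ?_, glueP_le h3, fun i hi => glue_ge hi,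
    glueP_le_left h3 (below_res r.1 j)⟩
  refine (glueP_le_left h3 (below_res r.1 j)).trans fun i => ?_
  by_cases hi : i < j
  · exact Le_res_left (h1 i) hi
  · exact Le_of_none g fun τ => hq i (not_lt.1 hi) τ

theorem CC_iff_compat {j : J} {q : Cd g} {e : Rep J L} (he : Below e j) :
    CC g j q.1 e ↔ ∃ r : Cd g, r ≤ q ∧ ∀ i, Le g i r.1 e := by
  rw [CC_iff]
  constructor
  · rintro ⟨r, h1, h2, h3, h4⟩
    refine ⟨⟨glue r q.1 j, Vl_glue h2 q.2 h3⟩, Le_glue h3, fun i => ?_⟩
    by_cases hi : i < j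
    · refine Le_trans g (q := r) (fun i' _ => Le_glue_left h1 i') (Le_of_eq g (glue_lt hi)) (h4 i hi)
    · exact Le_of_none g fun τ => he i (not_lt.1 hi) τ
  · rintro ⟨r, h1, h2⟩
    exact ⟨res r.1 j, below_res _ _, fun i _ => Vl_res r.2 j i,
      fun i hi => Le_res_left (h1 i) hi, fun i hi => Le_res_left (h2 i) hi⟩

/-! ### Unions -/

open Classical in
/-- the union, with preference to the first one -/
noncomputable def union (p q : Rep J L) : Rep J L where
  f i τ := if p.f i τ = none then q.f i τ else p.f i τ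
  fin := by
    refine (p.fin.union q.fin).subset fun x hx => ?_
    by_cases h : p.f x.1 x.2 = none
    · right; simpa [h] using hx
    · left; exact h

theorem union_left {p q : Rep J L} {i : J} {τ : Tag L} (h : p.f i τ ≠ none) :
    (union p q).f i τ = p.f i τ := if_neg h

theorem union_right {p q : Rep J L} {i : J} {τ : Tag L}
    (hag : p.f i τ ≠ none → q.f i τ ≠ none → p.f i τ = q.f i τ) (h : q.f i τ ≠ none) :
    (union p q).f i τ = q.f i τ := by
  by_cases h' : p.f i τ = none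
  · exact if_pos h'
  · rw [union_left h', hag h' h]

theorem Le_union_gen {u p : Rep J L} (i : J) (h : ∀ τ, p.f i τ ≠ none → u.f i τ = p.f i τ) :
    Le g i u p := by
  rw [Le_iff]
  refine ⟨fun x F a hx => ⟨F, ?_, subset_rfl, fun t ht h' => absurd ht h'⟩, fun τ _ v hv => ?_⟩
  · rw [h _ (by rw [hx]; simp), hx]
  · rw [h _ (by rw [hv]; simp), hv]

theorem Vl_union {p q : Rep J L} (hp : ∀ i, Vl g i p) (hq : ∀ i, Vl g i q)
    (hag : ∀ i τ, p.f i τ ≠ none → q.f i τ ≠ none → p.f i τ = q.f i τ) (i : J) :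
    Vl g i (union p q) := by
  classical
  have hup : ∀ i, Le g i (union p q) p := fun i => Le_union_gen i fun τ h => union_left h
  have huq : ∀ i, Le g i (union p q) q := fun i => Le_union_gen i fun τ h =>
    union_right (hag i τ) h
  have key : ∀ a : Rep J L, (∀ i, Vl g i a) → (∀ i, Le g i (union p q) a) →
      (∀ τ, a.f i τ ≠ none → (union p q).f i τ = a.f i τ) →
      (∀ x F b, a.f i (.nd x) = some (F, b) → ∀ y ∈ F, y.1 < x.1 ∧
        (∃ b', (union p q).f i (.nd y) = some (F.filter (fun z => z.1 < y.1), b') ∧ b' ≠ b) ∧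
          ∀ z ∈ F, z.1 = y.1 → z = y) ∧
      (∀ β s, a.f i (.pm β s) ≠ none → OKn (g β) (Data g i) ∧ ∃ F b,
        (union p q).f i (.nd s) = some (F, b) ∧
        ∀ r ∈ F, ∀ ξ < r.1, (∀ t ∈ F, t.1 ≠ ξ) → ∀ k, ∀ e ∈ g β s.1 ξ k,
          ¬ cc (Data g i) (union p q) e) ∧
      (∀ τ, (∀ x, τ ≠ .nd x) → ∀ v, a.f i τ = some v → v.1 = ∅) := by
    intro a ha hua hval
    obtain ⟨h1, h2, h3⟩ := ha i
    refine ⟨fun x F b hx y hy => ?_, fun β s hs => ?_, h3⟩
    · obtain ⟨h4, ⟨b', h5, h6⟩, h7⟩ := h1 x F b hx y hy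
      exact ⟨h4, ⟨b', by rw [hval _ (by rw [h5]; simp), h5], h6⟩, h7⟩
    · obtain ⟨h4, F, b, h5, h6⟩ := h2 β s hs
      refine ⟨h4, F, b, by rw [hval _ (by rw [h5]; simp), h5],
        fun r hr ξ hξ ht k e he hce => h6 r hr ξ hξ ht k e he ?_⟩
      exact CC_mono g (fun i' _ => hua i') hce
  obtain ⟨kp1, kp2, kp3⟩ := key p hp hup fun τ h => union_left h
  obtain ⟨kq1, kq2, kq3⟩ := key q hq huq fun τ h => union_right (hag i τ) h
  refine ⟨fun x F a hx => ?_, fun β s hs => ?_, fun τ hτ v hv => ?_⟩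
  · by_cases h : p.f i (.nd x) = none
    · have : (union p q).f i (.nd x) = q.f i (.nd x) := if_pos h
      rw [this] at hx
      exact kq1 x F a hx
    · rw [union_left h] at hx
      exact kp1 x F a hx
  · by_cases h : p.f i (.pm β s) = none
    · have : (union p q).f i (.pm β s) = q.f i (.pm β s) := if_pos h
      rw [this] at hs
      exact kq2 β s hs
    · exact kp2 β s h
  · by_cases h : p.f i τ = none
    · have : (union p q).f i τ = q.f i τ := if_pos h
      rw [this] at hv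
      exact kq3 τ hτ v hv
    · rw [union_left h] at hv
      exact kp3 τ hτ v hv

/-- conditions agreeing where both are defined are compatible: the union is a condition -/
theorem exists_union (p q : Cd g)
    (hag : ∀ i τ, p.1.f i τ ≠ none → q.1.f i τ ≠ none → p.1.f i τ = q.1.f i τ) :
    ∃ r : Cd g, r ≤ p ∧ r ≤ q ∧ ∀ i τ, p.1.f i τ = none → q.1.f i τ = none → r.1.f i τ = none := by
  refine ⟨⟨union p.1 q.1, Vl_union p.2 q.2 hag⟩, fun i => Le_union_gen i fun τ h => union_left h,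
    fun i => Le_union_gen i fun τ h => union_right (hag i τ) h, fun i τ h1 h2 => ?_⟩
  show (union p.1 q.1).f i τ = none
  have : (union p.1 q.1).f i τ = q.1.f i τ := if_pos h1
  rw [this, h2]

end Pool.Agent.Helper126.Lam.Poset
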