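import Mathlib
import Pool.Agent.Helper126.Lam.Poset

/-!
# The countable chain condition
-/

namespace Pool.Agent.Helper126.Lam.Ccc

open Cardinal Pool.Agent.Helper126.Lam.Forc Pool.Agent.Helper126.Lam.Poset

set_option linter.unusedSectionVars false

open MeasureTheory ProbabilityTheory in
/-- an uncountable family of finite functions from subsets of `I` to `ℕ` has two members which
agree on the intersection of their domains -/
theorem exists_agree {I : Type} {Y : Type} (S : Y → Set I) (hS : ∀ y, (S y).Finite)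
    (c : Y → I → ℕ) (hY : ¬ Countable Y) :
    ∃ y y', y ≠ y' ∧ ∀ η ∈ S y, η ∈ S y' → c y η = c y' η := by
  classical
  by_contra hcon
  push Not at hcon
  apply hY
  let μ : Measure (I → ℕ) := Measure.infinitePi fun _ => poissonMeasure 1
  let E : Y → Set (I → ℕ) := fun y => Set.pi ((hS y).toFinset : Set I) fun η => {c y η}
  have hE : ∀ y, MeasurableSet (E y) := fun y =>
    MeasurableSet.pi (Finset.countable_toSet _) fun _ _ => measurableSet_singleton _
  have hpos : ∀ y, 0 < μ (E y) := by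
    intro y
    have : μ (E y) = ∏ η ∈ (hS y).toFinset, poissonMeasure 1 {c y η} :=
      Measure.infinitePi_pi _ fun _ _ => measurableSet_singleton _
    rw [this, pos_iff_ne_zero, Finset.prod_ne_zero_iff]
    intro η _
    rw [poissonMeasure_singleton]
    simp only [ne_eq, ENNReal.ofReal_eq_zero, not_le]
    positivity
  have hdisj : Pairwise (Function.onFun Disjoint E) := by
    intro y y' hne
    obtain ⟨η, h1, h2, h3⟩ := hcon y y' hne
    rw [Function.onFun, Set.disjoint_left]
    intro x hx hx'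
    have h4 := hx η (by simpa using h1)
    have h5 := hx' η (by simpa using h2)
    simp only [Set.mem_singleton_iff] at h4 h5
    exact h3 (h4.symm.trans h5)
  have := Measure.countable_meas_pos_of_disjoint_iUnion (μ := μ) hE hdisj
  have h2 : {i : Y | 0 < μ (E i)} = Set.univ := Set.eq_univ_of_forall hpos
  rw [h2] at this
  exact Set.countable_univ_iff.1 this

theorem countable_Iio (α : K1) : (Set.Iio α).Countable := by
  have h : #(Set.Iio α) < #K1 := Cardinal.mk_Iio_lt α (by simp [K1])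
  rw [← Cardinal.le_aleph0_iff_set_countable]
  have h1 : #K1 = Order.succ ℵ₀ := by
    rw [mk_toType, card_ord]; exact succ_aleph0.symm
  exact Order.lt_succ_iff.1 (h.trans_eq h1)

theorem countable_below (α : K1) : {y : Node | y.1 < α}.Countable :=
  Set.Countable.mono (fun y hy => Set.mem_prod.2 ⟨hy, Set.mem_univ _⟩)
    ((countable_Iio α).prod (Set.countable_univ (α := ℕ)))

theorem countable_fin (α : K1) : {F : Finset Node | ∀ y ∈ F, y.1 < α}.Countable := by
  have h := Set.countable_ofPred_finite_subset (countable_below α)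
  refine (h.preimage_of_injOn (f := fun F : Finset Node => (F : Set Node))
    (Finset.coe_injective.injOn)).mono fun F hF => ?_
  exact ⟨F.finite_toSet, fun y hy => hF y hy⟩

theorem exists_code (α : K1) : ∃ c : Finset Node → ℕ, Set.InjOn c {F | ∀ y ∈ F, y.1 < α} :=
  Set.countable_iff_exists_injOn.1 (countable_fin α)

noncomputable def cF (α : K1) : Finset Node → ℕ := (exists_code α).choose

theorem cF_inj (α : K1) {F F' : Finset Node} (h : ∀ y ∈ F, y.1 < α) (h' : ∀ y ∈ F', y.1 < α)
    (he : cF α F = cF α F') : F = F' := (exists_code α).choose_spec h h' he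

variable {J L : Type}

/-- the code of a value at the tag `τ` -/
noncomputable def cV : Tag L → Val → ℕ
  | .nd x, v => Nat.pair (cF x.1 v.1) v.2
  | .ph _ _, v => v.2
  | .pm _ _, v => v.2
  | .co _ _, v => v.2

variable {g : L → K1 → K1 → ℕ → Set (Rep J L)} [LinearOrder J] [WellFoundedLT J]

theorem cV_inj {i : J} {p q : Rep J L} (hp : Vl g i p) (hq : Vl g i q) {τ : Tag L} {v v' : Val}
    (h : p.f i τ = some v) (h' : q.f i τ = some v') (he : cV τ v = cV τ v') : v = v' := by
  obtain ⟨F, a⟩ := v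
  obtain ⟨F', a'⟩ := v'
  cases τ with
  | nd x =>
    simp only [cV, Nat.pair_eq_pair] at he
    rw [cF_inj x.1 (fun y hy => (hp.1 x F a h y hy).1) (fun y hy => (hq.1 x F' a' h' y hy).1) he.1,
      he.2]
  | ph β x =>
    have h1 := hp.2.2 _ (by simp) _ h
    have h2 := hq.2.2 _ (by simp) _ h'
    simp only [cV] at he h1 h2
    rw [he, h1, h2]
  | pm β x =>
    have h1 := hp.2.2 _ (by simp) _ h
    have h2 := hq.2.2 _ (by simp) _ h'
    simp only [cV] at he h1 h2
    rw [he, h1, h2]
  | co x y =>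
    have h1 := hp.2.2 _ (by simp) _ h
    have h2 := hq.2.2 _ (by simp) _ h'
    simp only [cV] at he h1 h2
    rw [he, h1, h2]

/-- two members of an uncountable family of conditions agree on their common domain, and respect
reserved places -/
theorem exists_agree_cd {Y : Type} (f : Y → Cd g) (R : Y → Set (J × Tag L))
    (hR : ∀ y, (R y).Finite) (hRn : ∀ y, ∀ x ∈ R y, (f y).1.f x.1 x.2 = none)
    (hY : ¬ Countable Y) : ∃ y y', y ≠ y' ∧
      (∀ i τ, (f y).1.f i τ ≠ none → (f y').1.f i τ ≠ none → (f y).1.f i τ = (f y').1.f i τ) ∧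
      (∀ x ∈ R y, (f y').1.f x.1 x.2 = none) ∧ (∀ x ∈ R y', (f y).1.f x.1 x.2 = none) := by
  classical
  let c : Y → J × Tag L → ℕ := fun y x =>
    match (f y).1.f x.1 x.2 with
    | none => 0
    | some v => cV x.2 v + 1
  have hc0 : ∀ y x, (f y).1.f x.1 x.2 = none → c y x = 0 := by
    intro y x h; simp only [c]; rw [h]
  have hc1 : ∀ y x v, (f y).1.f x.1 x.2 = some v → c y x = cV x.2 v + 1 := by
    intro y x v h; simp only [c]; rw [h]
  obtain ⟨y, y', hne, h⟩ := exists_agree
    (fun y => {x : J × Tag L | (f y).1.f x.1 x.2 ≠ none} ∪ R y)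
    (fun y => (f y).1.fin.union (hR y)) c hY
  refine ⟨y, y', hne, fun i τ h1 h2 => ?_, fun x hx => ?_, fun x hx => ?_⟩
  · obtain ⟨v, hv⟩ := Option.ne_none_iff_exists'.1 h1
    obtain ⟨v', hv'⟩ := Option.ne_none_iff_exists'.1 h2
    have h3 := h (i, τ) (Or.inl h1) (Or.inl h2)
    rw [hc1 y (i, τ) v hv, hc1 y' (i, τ) v' hv'] at h3
    have h4 : cV τ v = cV τ v' := Nat.succ_injective h3
    rw [hv, hv', cV_inj ((f y).2 i) ((f y').2 i) hv hv' h4]
  · by_contra hcon
    obtain ⟨v, hv⟩ := Option.ne_none_iff_exists'.1 hcon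
    have h3 := h x (Or.inr hx) (Or.inl hcon)
    rw [hc0 y x (hRn y x hx), hc1 y' x v hv] at h3
    omega
  · by_contra hcon
    obtain ⟨v, hv⟩ := Option.ne_none_iff_exists'.1 hcon
    have h3 := h x (Or.inl hcon) (Or.inr hx)
    rw [hc0 y' x (hRn y' x hx), hc1 y x v hv] at h3
    omega

/-- the countable chain condition -/
theorem cond_ccc {Y : Type} (f : Y → Cd g) (hY : ¬ Countable Y) :
    ∃ y y', y ≠ y' ∧ ∃ s, s ≤ f y ∧ s ≤ f y' := by
  obtain ⟨y, y', hne, h, _, _⟩ := exists_agree_cd f (fun _ => ∅) (by simp) (by simp) hY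
  obtain ⟨r, h1, h2, _⟩ := exists_union (f y) (f y') h
  exact ⟨y, y', hne, r, h1, h2⟩

/-- inside every set there is a countable set such that each member of the set is compatible
with one of them -/
theorem exists_antichain (D : Set (Cd g)) :
    ∃ A ⊆ D, A.Countable ∧ ∀ p ∈ D, ∃ a ∈ A, ∃ s, s ≤ a ∧ s ≤ p := by
  obtain ⟨A, hA⟩ := zorn_subset {A : Set (Cd g) | A ⊆ D ∧ ∀ a ∈ A, ∀ b ∈ A,
      (∃ s, s ≤ a ∧ s ≤ b) → a = b}
    (by
      intro c hc hchain
      refine ⟨⋃₀ c, ⟨Set.sUnion_subset fun s hs => (hc hs).1, ?_⟩,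
        fun s hs => Set.subset_sUnion_of_mem hs⟩
      rintro a ⟨s, hs, ha⟩ b ⟨t, ht, hb⟩ hab
      rcases hchain.total hs ht with h | h
      · exact (hc ht).2 a (h ha) b hb hab
      · exact (hc hs).2 a ha b (h hb) hab)
  refine ⟨A, hA.prop.1, ?_, ?_⟩
  · by_contra hcount
    have hcount' : ¬ Countable A := hcount
    obtain ⟨y, y', hne, h⟩ := cond_ccc (fun a : A => a.1) hcount'
    exact hne (Subtype.ext (hA.prop.2 y.1 y.2 y'.1 y'.2 h))
  · intro p hp
    by_contra hcon
    push Not at hcon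
    have hpA : p ∉ A := fun hpA => hcon p hpA p le_rfl le_rfl
    have hmem : insert p A ∈ {A : Set (Cd g) | A ⊆ D ∧ ∀ a ∈ A, ∀ b ∈ A,
        (∃ s, s ≤ a ∧ s ≤ b) → a = b} := by
      refine ⟨Set.insert_subset hp hA.prop.1, ?_⟩
      rintro a (rfl | ha) b (rfl | hb) ⟨s, h1, h2⟩
      · rfl
      · exact absurd h1 (hcon b hb s h2)
      · exact absurd h2 (hcon a ha s h1)
      · exact hA.prop.2 a ha b hb ⟨s, h1, h2⟩
    exact hpA (hA.le_of_ge hmem (Set.subset_insert p A) (Set.mem_insert p A))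

/-- the supports of at most `κ` conditions are bounded -/
theorem exists_below {κ : Cardinal.{0}} (hκ : ℵ₀ ≤ κ)
    (hcof : ∀ S : Set J, #S ≤ κ → ∃ b, ∀ s ∈ S, s < b)
    {A : Set (Cd g)} (hA : #A ≤ κ) : ∃ b : J, ∀ a ∈ A, ∀ b' ≥ b, Below a.1 b' := by
  obtain ⟨b, hb⟩ := hcof (⋃ a : A, Prod.fst '' {x : J × Tag L | a.1.1.f x.1 x.2 ≠ none}) (by
    refine (mk_iUnion_le_sum_mk).trans ?_
    refine (Cardinal.sum_le_sum _ (fun _ => ℵ₀) fun a => ?_).trans ?_
    · exact Cardinal.le_aleph0_iff_set_countable.2 ((a.1.1.fin.image _).countable)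
    · rw [Cardinal.sum_const']
      exact (mul_le_mul' hA hκ).trans (mul_eq_self hκ).le)
  refine ⟨b, fun a ha b' hb' i hi τ => ?_⟩
  by_contra hcon
  have := hb i (Set.mem_iUnion.2 ⟨⟨a, ha⟩, (i, τ), hcon, rfl⟩)
  exact absurd (hb'.trans hi) (not_le.2 this)

end Pool.Agent.Helper126.Lam.Ccc
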