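import Mathlib
import Pool.Agent.Helper126.Lam.Poset

/-!
# Adding nodes, promises and values to a condition
-/

namespace Pool.Agent.Helper126.Lam.Insert

open Cardinal Pool.Agent.Helper126.Lam.Forc Pool.Agent.Helper126.Lam.Poset

set_option linter.unusedSectionVars false

variable {J L : Type} {g : L → K1 → K1 → ℕ → Set (Rep J L)} [LinearOrder J] [WellFoundedLT J]

open Classical in
/-- replace the coordinate `j` -/
noncomputable def setAt (p : Rep J L) (j : J) (u : Tag L → Option Val)
    (hu : {τ | u τ ≠ none}.Finite) : Rep J L where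
  f i τ := if i = j then u τ else p.f i τ
  fin := by
    refine (p.fin.union (hu.image fun τ => (j, τ))).subset fun x hx => ?_
    by_cases h : x.1 = j
    · right
      refine ⟨x.2, by simpa [h] using hx, ?_⟩
      rw [← h]
    · left; simpa [h] using hx

theorem setAt_self {p : Rep J L} {j : J} {u : Tag L → Option Val} {hu : {τ | u τ ≠ none}.Finite} :
    (setAt p j u hu).f j = u := by
  funext τ; exact if_pos rfl

theorem setAt_ne {p : Rep J L} {j i : J} {u : Tag L → Option Val} {hu : {τ | u τ ≠ none}.Finite}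
    (h : i ≠ j) : (setAt p j u hu).f i = p.f i := by
  funext τ; exact if_neg h

theorem CC_setAt {p : Rep J L} {j : J} {u : Tag L → Option Val} {hu : {τ | u τ ≠ none}.Finite}
    {e : Rep J L} : CC g j (setAt p j u hu) e ↔ CC g j p e :=
  CC_congr g fun _ h' => setAt_ne h'.ne

theorem setAt_ok (p : Cd g) {j : J} {u : Tag L → Option Val} (hu : {τ | u τ ≠ none}.Finite)
    (hle : Le g j (setAt p.1 j u hu) p.1) (hvl : Vl g j (setAt p.1 j u hu)) :
    ∃ q : Cd g, q ≤ p ∧ q.1.f j = u ∧ ∀ i, i ≠ j → q.1.f i = p.1.f i := by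
  have hle' : ∀ i, Le g i (setAt p.1 j u hu) p.1 := by
    intro i
    by_cases h : i = j
    · subst h; exact hle
    · exact Le_of_eq g (setAt_ne h)
  refine ⟨⟨setAt p.1 j u hu, fun i => ?_⟩, hle', setAt_self (hu := hu),
    fun i hi => setAt_ne (hu := hu) hi⟩
  by_cases h : i = j
  · subst h; exact hvl
  · exact Vl_congr g (setAt_ne h) (fun e he => CC_mono g (fun i' _ => hle' i') he) (p.2 i)

theorem fin_at (p : Rep J L) (j : J) : {τ | p.f j τ ≠ none}.Finite := by
  refine (p.fin.image Prod.snd).subset fun τ hτ => ⟨(j, τ), hτ, rfl⟩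

/-- a node of level `ξ` which does not occur -/
theorem exists_fresh (p : Rep J L) (j : J) (ξ : K1) : ∃ m : ℕ, p.f j (.nd (ξ, m)) = none ∧
    ∀ β, p.f j (.ph β (ξ, m)) = none := by
  classical
  let nn : Tag L → ℕ := fun τ => match τ with
    | .nd x => x.2
    | .ph _ x => x.2
    | .pm _ x => x.2
    | .co _ _ => 0
  obtain ⟨m, hm⟩ := ((fin_at p j).image nn).infinite_compl.nonempty
  refine ⟨m, ?_, fun β => ?_⟩
  · by_contra h
    exact hm ⟨_, h, rfl⟩
  · by_contra h
    exact hm ⟨_, h, rfl⟩

/-- a colour which does not occur -/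
theorem exists_colour (p : Rep J L) (j : J) : ∃ c : ℕ, ∀ x F a, p.f j (.nd x) = some (F, a) →
    a ≠ c := by
  classical
  let nn : Tag L → ℕ := fun τ => match p.f j τ with
    | some v => v.2
    | none => 0
  obtain ⟨m, hm⟩ := ((fin_at p j).image nn).infinite_compl.nonempty
  refine ⟨m, fun x F a h hc => hm ⟨.nd x, ?_, ?_⟩⟩
  · show p.f j (.nd x) ≠ none
    rw [h]; simp
  · simp only [nn]
    rw [h]
    exact hc

section insertion

open Classical in
/-- the new coordinate after inserting the node `t` directly below `r` -/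
noncomputable def insU (p : Rep J L) (j : J) (r t : Node) (Fr : Finset Node) (c : ℕ) (K : L → ℕ) :
    Tag L → Option Val
  | .nd x => if x = t then some (Fr, c) else
      (p.f j (.nd x)).map fun v => (if x = r ∨ r ∈ v.1 then insert t v.1 else v.1, v.2)
  | .ph β x => if x = t ∧ p.f j (.pm β r) ≠ none then some (∅, K β) else p.f j (.ph β x)
  | .pm β x => p.f j (.pm β x)
  | .co x y => p.f j (.co x y)

theorem insU_fin (p : Rep J L) (j : J) (r t : Node) (Fr : Finset Node) (c : ℕ) (K : L → ℕ) :
    {τ | insU p j r t Fr c K τ ≠ none}.Finite := by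
  classical
  refine (((fin_at p j).union (Set.finite_singleton (.nd t))).union
    ((fin_at p j).image fun τ => match τ with
      | .nd x => .nd x
      | .ph β x => .ph β x
      | .pm β _ => .ph β t
      | .co x y => .co x y)).subset fun τ hτ => ?_
  cases τ with
  | nd x =>
    by_cases h : x = t
    · left; right; rw [h]; exact rfl
    · left; left
      intro h'
      apply hτ
      show insU p j r t Fr c K (.nd x) = none
      simp only [insU]
      rw [if_neg h, h']
      rfl
  | ph β x =>
    by_cases h : x = t ∧ p.f j (.pm β r) ≠ none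
    · right
      refine ⟨.pm β r, h.2, ?_⟩
      show Tag.ph β t = Tag.ph β x
      rw [h.1]
    · left; left
      intro h'
      apply hτ
      show insU p j r t Fr c K (.ph β x) = none
      simp only [insU]
      rw [if_neg h, h']
  | pm β x => left; left; exact hτ
  | co x y => left; left; exact hτ

variable {p : Rep J L} {j : J} {r t : Node} {Fr : Finset Node} {c : ℕ} {K : L → ℕ}

open Classical in
theorem insU_t : insU p j r t Fr c K (.nd t) = some (Fr, c) := by
  simp only [insU]; exact if_pos trivial

open Classical in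
theorem insU_old {x : Node} {F : Finset Node} {b : ℕ} (hx : x ≠ t)
    (h : p.f j (.nd x) = some (F, b)) :
    insU p j r t Fr c K (.nd x) = some (if x = r ∨ r ∈ F then insert t F else F, b) := by
  simp only [insU]
  rw [if_neg hx, h]
  rfl

open Classical in
theorem insU_inv {x : Node} {F' : Finset Node} {b : ℕ} (hx : x ≠ t)
    (h : insU p j r t Fr c K (.nd x) = some (F', b)) :
    ∃ F, p.f j (.nd x) = some (F, b) ∧ F' = if x = r ∨ r ∈ F then insert t F else F := by
  simp only [insU] at h
  rw [if_neg hx] at h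
  obtain ⟨⟨F, b'⟩, h1, h2⟩ := Option.map_eq_some_iff.1 h
  simp only [Prod.mk.injEq] at h2
  obtain ⟨h3, rfl⟩ := h2
  exact ⟨F, h1, h3.symm⟩

end insertion

open Classical in
/-- insertion of a new node of level `ξ` directly below `r` -/
theorem insert_node (p : Cd g) {j : J} {r : Node} {Fr : Finset Node} {a : ℕ}
    (hr : p.1.f j (.nd r) = some (Fr, a)) {ξ : K1} (hξ : ξ < r.1) (hlow : ∀ y ∈ Fr, y.1 < ξ)
    (K : L → ℕ) (hK : ∀ β, p.1.f j (.pm β r) ≠ none → ∀ k, ∀ e ∈ g β r.1 ξ k,
      CC g j p.1 e → k = K β)
    (hfill : ∀ β, p.1.f j (.pm β r) ≠ none → ∀ ξ' < ξ, (∀ t ∈ Fr, t.1 ≠ ξ') → ∀ k,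
      ∀ e ∈ g β r.1 ξ' k, ¬ CC g j p.1 e) :
    ∃ q : Cd g, q ≤ p ∧ ∃ m : ℕ, (∀ x F b, p.1.f j (.nd x) = some (F, b) →
        q.1.f j (.nd x) = some (if x = r ∨ r ∈ F then insert (ξ, m) F else F, b)) ∧
      (∀ β s, q.1.f j (.pm β s) = p.1.f j (.pm β s)) ∧
      (∀ x, q.1.f j (.nd x) ≠ none → p.1.f j (.nd x) ≠ none ∨ x = (ξ, m)) ∧
      ∀ i, i ≠ j → q.1.f i = p.1.f i := by
  obtain ⟨m, hm1, hm2⟩ := exists_fresh p.1 j ξ
  obtain ⟨c, hc⟩ := exists_colour p.1 j
  set t : Node := (ξ, m) with ht
  have htlev : t.1 = ξ := rfl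
  have hne : ∀ {x : Node} {F : Finset Node} {b : ℕ}, p.1.f j (.nd x) = some (F, b) → x ≠ t := by
    rintro x F b h rfl
    rw [hm1] at h
    exact absurd h (by simp)
  obtain ⟨hT, hP, hO⟩ := p.2 j
  -- facts about nodes at least `r`
  have hfil : ∀ {x : Node} {F : Finset Node} {b : ℕ}, p.1.f j (.nd x) = some (F, b) →
      (x = r ∨ r ∈ F) → F.filter (fun z => z.1 < r.1) = Fr ∧ r.1 ≤ x.1 := by
    intro x F b hx hxr
    rcases hxr with rfl | hrF
    · rw [hr] at hx
      obtain ⟨rfl, _⟩ := Prod.mk.inj (Option.some.inj hx)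
      refine ⟨Finset.filter_true_of_mem fun z hz => (hlow z hz).trans hξ, le_rfl⟩
    · obtain ⟨h1, ⟨b', h2, _⟩, _⟩ := hT x F b hx r hrF
      rw [hr] at h2
      exact ⟨((Prod.mk.inj (Option.some.inj h2)).1).symm, h1.le⟩
  have hnoξ : ∀ {x : Node} {F : Finset Node} {b : ℕ}, p.1.f j (.nd x) = some (F, b) →
      (x = r ∨ r ∈ F) → ∀ z ∈ F, z.1 < r.1 → z.1 < ξ := by
    intro x F b hx hxr z hz hzr
    apply hlow
    rw [← (hfil hx hxr).1]
    exact Finset.mem_filter.2 ⟨hz, hzr⟩
  have hgt : ∀ {x : Node} {F : Finset Node} {b : ℕ}, p.1.f j (.nd x) = some (F, b) →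
      (x = r ∨ r ∈ F) → ∀ y ∈ F, ξ ≤ y.1 → y = r ∨ r ∈ F.filter (fun z => z.1 < y.1) := by
    intro x F b hx hxr y hy hyξ
    have h1 : ¬ y.1 < r.1 := fun h => absurd (hnoξ hx hxr y hy h) (not_lt.2 hyξ)
    rcases hxr with rfl | hrF
    · rw [hr] at hx
      obtain ⟨rfl, _⟩ := Prod.mk.inj (Option.some.inj hx)
      exact absurd (hlow y hy) (not_lt.2 hyξ)
    · rcases lt_or_eq_of_le (not_lt.1 h1) with h2 | h2
      · exact Or.inr (Finset.mem_filter.2 ⟨hrF, h2⟩)
      · exact Or.inl ((hT x F b hx r hrF).2.2 y hy h2.symm)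
  have hvl : Vl g j (setAt p.1 j (insU p.1 j r t Fr c K) (insU_fin p.1 j r t Fr c K)) := by
    refine ⟨fun x F' b hx y hy => ?_, fun β s hs => ?_, fun τ hτ v hv => ?_⟩
    · rw [setAt_self] at hx ⊢
      by_cases hxt : x = t
      · subst hxt
        rw [insU_t] at hx
        obtain ⟨rfl, rfl⟩ := Prod.mk.inj (Option.some.inj hx)
        obtain ⟨h1, ⟨b', h2, h3⟩, h4⟩ := hT r Fr a hr y hy
        refine ⟨hlow y hy, ⟨b', ?_, hc y _ b' h2⟩, h4⟩
        rw [insU_old (hne h2) h2, if_neg]
        rintro (rfl | h)
        · exact absurd h1 (lt_irrefl _)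
        · exact absurd (Finset.mem_filter.1 h).2 (not_lt.2 h1.le)
      · obtain ⟨F, hxF, rfl⟩ := insU_inv hxt hx
        by_cases hxr : x = r ∨ r ∈ F
        · rw [if_pos hxr] at hy ⊢
          obtain ⟨hf1, hf2⟩ := hfil hxF hxr
          rcases Finset.mem_insert.1 hy with rfl | hyF
          · refine ⟨hξ.trans_le hf2, ⟨c, ?_, (hc x F b hxF).symm⟩, fun z hz hzt => ?_⟩
            · rw [insU_t]
              congr 2
              ext z
              rw [Finset.mem_filter, Finset.mem_insert]
              constructor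
              · intro hz
                have : z ∈ F.filter (fun z => z.1 < r.1) := by rw [hf1]; exact hz
                exact ⟨Or.inr (Finset.mem_filter.1 this).1, hlow z hz⟩
              · rintro ⟨rfl | hz, hz'⟩
                · exact absurd hz' (lt_irrefl _)
                · rw [← hf1]
                  exact Finset.mem_filter.2 ⟨hz, hz'.trans hξ⟩
            · rcases Finset.mem_insert.1 hz with rfl | hz
              · rfl
              · have h1 : z.1 < r.1 := by rw [hzt]; exact hξ
                have h2 := hnoξ hxF hxr z hz h1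
                rw [hzt] at h2
                exact absurd h2 (lt_irrefl _)
          · obtain ⟨h1, ⟨b', h2, h3⟩, h4⟩ := hT x F b hxF y hyF
            refine ⟨h1, ⟨b', ?_, h3⟩, fun z hz hzy => ?_⟩
            · rw [insU_old (hne h2) h2]
              congr 2
              by_cases hyr : y = r ∨ r ∈ F.filter (fun z => z.1 < y.1)
              · rw [if_pos hyr, Finset.filter_insert, if_pos]
                show ξ < y.1
                rcases hyr with rfl | h
                · exact hξ
                · exact hξ.trans (Finset.mem_filter.1 h).2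
              · rw [if_neg hyr, Finset.filter_insert, if_neg]
                intro hcon
                exact hyr (hgt hxF hxr y hyF (le_of_lt hcon))
            · rcases Finset.mem_insert.1 hz with rfl | hz
              · exfalso
                have h5 : y = r ∨ r ∈ F.filter (fun z => z.1 < y.1) :=
                  hgt hxF hxr y hyF hzy.le
                rcases h5 with rfl | h5
                · rw [← hzy] at hξ; exact absurd hξ (lt_irrefl _)
                · have := (Finset.mem_filter.1 h5).2
                  rw [← hzy] at this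
                  exact absurd (this.trans hξ) (lt_irrefl _)
              · exact h4 z hz hzy
        · rw [if_neg hxr] at hy ⊢
          obtain ⟨h1, ⟨b', h2, h3⟩, h4⟩ := hT x F b hxF y hy
          refine ⟨h1, ⟨b', ?_, h3⟩, h4⟩
          rw [insU_old (hne h2) h2, if_neg]
          rintro (rfl | h)
          · exact hxr (Or.inr hy)
          · exact hxr (Or.inr (Finset.mem_filter.1 h).1)
    · rw [setAt_self] at hs ⊢
      obtain ⟨h1, F, b, h2, h3⟩ := hP β s hs
      refine ⟨h1, _, b, insU_old (hne h2) h2, fun r' hr' ξ' hξ' ht' k e he hce => ?_⟩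
      have hce' : CC g j p.1 e := CC_setAt.1 hce
      by_cases hsr : s = r ∨ r ∈ F
      · rw [if_pos hsr] at hr' ht'
        have ht'' : ∀ z ∈ F, z.1 ≠ ξ' := fun z hz => ht' z (Finset.mem_insert_of_mem hz)
        rcases Finset.mem_insert.1 hr' with rfl | hr'
        · rcases hsr with rfl | hrF
          · rw [hr] at h2
            obtain ⟨rfl, _⟩ := Prod.mk.inj (Option.some.inj h2)
            exact hfill β hs ξ' hξ' ht'' k e he hce'
          · exact h3 r hrF ξ' (hξ'.trans hξ) ht'' k e he hce'
        · exact h3 r' hr' ξ' hξ' ht'' k e he hce'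
      · rw [if_neg hsr] at hr' ht'
        exact h3 r' hr' ξ' hξ' ht' k e he hce'
    · rw [setAt_self] at hv
      cases τ with
      | nd x => exact absurd rfl (hτ x)
      | ph β x =>
        simp only [insU] at hv
        split_ifs at hv with h
        · rw [← Option.some.inj hv]
        · exact hO _ (by simp) v hv
      | pm β x => exact hO (.pm β x) (by simp) v hv
      | co x y => exact hO (.co x y) (by simp) v hv
  have hle : Le g j (setAt p.1 j (insU p.1 j r t Fr c K) (insU_fin p.1 j r t Fr c K)) p.1 := by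
    rw [Le_iff]
    refine ⟨fun x F b hx => ?_, fun τ hτ v hv => ?_⟩
    · rw [setAt_self]
      refine ⟨_, insU_old (hne hx) hx, ?_, fun t' ht' ht'F => ?_⟩
      · split_ifs
        · exact Finset.subset_insert _ _
        · exact subset_rfl
      · by_cases hxr : x = r ∨ r ∈ F
        · rw [if_pos hxr] at ht'
          rcases Finset.mem_insert.1 ht' with rfl | h
          · refine ⟨hm1, fun β hβ k e he hce => ?_⟩
            have hce' : CC g j p.1 e := CC_setAt.1 hce
            by_cases hxr' : x = r
            · subst hxr'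
              refine ⟨(∅, K β), ?_, (hK β hβ k e he hce').symm⟩
              simp only [insU]
              exact if_pos ⟨trivial, hβ⟩
            · exfalso
              have hrF : r ∈ F := hxr.resolve_left hxr'
              obtain ⟨_, F2, b2, h2, h3⟩ := hP β x hβ
              rw [hx] at h2
              obtain ⟨rfl, _⟩ := Prod.mk.inj (Option.some.inj h2)
              refine h3 r hrF ξ hξ (fun z hz hzξ => ?_) k e he hce'
              have := hnoξ hx hxr z hz (by rw [hzξ]; exact hξ)
              rw [hzξ] at this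
              exact absurd this (lt_irrefl _)
          · exact absurd h ht'F
        · rw [if_neg hxr] at ht'
          exact absurd ht' ht'F
    · rw [setAt_self]
      cases τ with
      | nd x => exact absurd rfl (hτ x)
      | ph β x =>
        simp only [insU]
        rw [if_neg, hv]
        rintro ⟨rfl, _⟩
        rw [hm2] at hv
        exact absurd hv (by simp)
      | pm β x => exact hv
      | co x y => exact hv
  obtain ⟨q, hq1, hq2, hq3⟩ := setAt_ok p _ hle hvl
  refine ⟨q, hq1, m, fun x F b hx => ?_, fun β s => ?_, fun x hx => ?_, hq3⟩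
  · rw [hq2]; exact insU_old (hne hx) hx
  · rw [hq2]; rfl
  · rw [hq2] at hx
    by_cases h : x = t
    · right; exact h
    · left
      intro h'
      apply hx
      simp only [insU]
      rw [if_neg h, h']
      rfl

end Pool.Agent.Helper126.Lam.Insert
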