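import Mathlib
import Pool.Agent.Helper126.Lam.Insert

/-!
# Density lemmas
-/

namespace Pool.Agent.Helper126.Lam.Dense

open Cardinal Pool.Agent.Helper126.Lam.Forc Pool.Agent.Helper126.Lam.Poset
  Pool.Agent.Helper126.Lam.Insert

set_option linter.unusedSectionVars false

variable {J L : Type} {g : L → K1 → K1 → ℕ → Set (Rep J L)} [LinearOrder J] [WellFoundedLT J]

theorem CC_of_le {p q : Cd g} (h : q ≤ p) {j : J} {e : Rep J L} (hc : CC g j q.1 e) :
    CC g j p.1 e := CC_mono g (fun i _ => h i) hc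

/-- extending below `j` -/
theorem exists_below_le (p : Cd g) (j : J) {r : Rep J L} (hr : r ∈ (Data g j).V)
    (hle : ∀ i, i < j → Le g i r p.1) : ∃ q : Cd g, q ≤ p ∧ (∀ i, j ≤ i → q.1.f i = p.1.f i) ∧
      ∀ i, i < j → q.1.f i = r.f i := by
  rw [mem_V] at hr
  exact ⟨⟨glue r p.1 j, Vl_glue hr.2 p.2 hle⟩, Le_glue hle, fun i hi => glue_ge hi,
    fun i hi => glue_lt hi⟩

theorem res_mem_V (p : Cd g) (j : J) : res p.1 j ∈ (Data g j).V := by
  rw [mem_V]
  exact ⟨below_res _ _, fun i _ => Vl_res p.2 j i⟩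

theorem decide_fin (p : Cd g) (j : J) {N : K1 → K1 → ℕ → Set (Rep J L)}
    (hOK : OKn N (Data g j)) {α η : K1} (h : η < α) :
    ∃ q : Cd g, q ≤ p ∧ (∀ i, j ≤ i → q.1.f i = p.1.f i) ∧ ∃ B : Finset K1, ∀ ξ < η, ξ ∉ B →
      ∀ k, ∀ e ∈ N α ξ k, ¬ CC g j q.1 e := by
  obtain ⟨r', hr', hle, B, hB⟩ := hOK.2 α η h (res p.1 j) (res_mem_V p j)
  rw [le_D] at hle
  obtain ⟨q, h1, h2, h3⟩ := exists_below_le p j hr' fun i hi =>
    (Le_congr_right g (res_lt hi)).1 (hle i hi)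
  refine ⟨q, h1, h2, B, fun ξ hξ hξB k e he hc => hB ξ hξ hξB k e he ?_⟩
  exact (CC_congr g h3).1 hc

theorem decide_val (p : Cd g) (j : J) {N : K1 → K1 → ℕ → Set (Rep J L)}
    (hOK : OKn N (Data g j)) (α ξ : K1) :
    ∃ q : Cd g, q ≤ p ∧ (∀ i, j ≤ i → q.1.f i = p.1.f i) ∧ ∃ K : ℕ, ∀ k, ∀ e ∈ N α ξ k,
      CC g j q.1 e → k = K := by
  by_cases hex : ∃ k, ∃ e ∈ N α ξ k, CC g j p.1 e
  · obtain ⟨K, e, he, r, hr, h1, h2⟩ := hex
    have h1' := h1
    rw [le_D] at h1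
    obtain ⟨q, h3, h4, h5⟩ := exists_below_le p j hr h1
    refine ⟨q, h3, h4, K, fun k e' he' hc => ?_⟩
    obtain ⟨r', hr', h6, h7⟩ := (CC_congr g h5).1 hc
    refine hOK.1 α ξ k K r' hr' e' he' e he h7 ?_
    rw [le_D] at h2 h6 ⊢
    intro i
    induction i using WellFoundedLT.induction with
    | ind i IH =>
      intro hi
      exact Le_trans g (q := r) (fun i' h' => h6 i' (h'.trans hi)) (h6 i hi) (h2 i hi)
  · exact ⟨p, le_rfl, fun _ _ => rfl, 0, fun k e he hc => absurd ⟨k, e, he, hc⟩ hex⟩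

theorem decide_fin_finset (p : Cd g) (j : J) {α η : K1} (h : η < α) (D : Finset L)
    (hOK : ∀ β ∈ D, OKn (g β) (Data g j)) :
    ∃ q : Cd g, q ≤ p ∧ (∀ i, j ≤ i → q.1.f i = p.1.f i) ∧ ∃ B : Finset K1, ∀ β ∈ D,
      ∀ ξ < η, ξ ∉ B → ∀ k, ∀ e ∈ g β α ξ k, ¬ CC g j q.1 e := by
  classical
  induction D using Finset.induction_on with
  | empty => exact ⟨p, le_rfl, fun _ _ => rfl, ∅, by simp⟩
  | insert β D _ ih =>
    obtain ⟨q, h1, h2, B, hB⟩ := ih fun β' hβ' => hOK β' (Finset.mem_insert_of_mem hβ')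
    obtain ⟨q', h3, h4, B', hB'⟩ := decide_fin q j (hOK β (Finset.mem_insert_self _ _)) h
    refine ⟨q', h3.trans h1, fun i hi => (h4 i hi).trans (h2 i hi), B ∪ B', ?_⟩
    intro β' hβ' ξ hξ hξB k e he hc
    rw [Finset.mem_union, not_or] at hξB
    rcases Finset.mem_insert.1 hβ' with rfl | hβ'
    · exact hB' ξ hξ hξB.2 k e he hc
    · exact hB β' hβ' ξ hξ hξB.1 k e he (CC_of_le h3 hc)

theorem decide_val_finset (p : Cd g) (j : J) (α ξ : K1) (D : Finset L)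
    (hOK : ∀ β ∈ D, OKn (g β) (Data g j)) :
    ∃ q : Cd g, q ≤ p ∧ (∀ i, j ≤ i → q.1.f i = p.1.f i) ∧ ∃ K : L → ℕ, ∀ β ∈ D,
      ∀ k, ∀ e ∈ g β α ξ k, CC g j q.1 e → k = K β := by
  classical
  induction D using Finset.induction_on with
  | empty => exact ⟨p, le_rfl, fun _ _ => rfl, fun _ => 0, by simp⟩
  | insert β D hβD ih =>
    obtain ⟨q, h1, h2, K, hK⟩ := ih fun β' hβ' => hOK β' (Finset.mem_insert_of_mem hβ')
    obtain ⟨q', h3, h4, k0, hk0⟩ := decide_val q j (hOK β (Finset.mem_insert_self _ _)) α ξ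
    refine ⟨q', h3.trans h1, fun i hi => (h4 i hi).trans (h2 i hi), Function.update K β k0, ?_⟩
    intro β' hβ' k e he hc
    by_cases hbb : β' = β
    · subst hbb
      rw [Function.update_self]
      exact hk0 k e he hc
    · rw [Function.update_of_ne hbb]
      exact hK β' ((Finset.mem_insert.1 hβ').resolve_left hbb) k e he (CC_of_le h3 hc)

/-- levels below a node can be filled -/
def FillAt (g : L → K1 → K1 → ℕ → Set (Rep J L)) (j : J) (ξ : K1) : Prop :=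
  ∀ p : Cd g, ∀ (s : Node) F a, p.1.f j (.nd s) = some (F, a) → ξ < s.1 →
    ∃ q : Cd g, q ≤ p ∧ ∃ F', q.1.f j (.nd s) = some (F', a) ∧ (∃ t ∈ F', t.1 = ξ) ∧
      (∀ x, q.1.f j (.nd x) ≠ none → p.1.f j (.nd x) ≠ none ∨ x.1 ≤ ξ) ∧
      ∀ β x, q.1.f j (.pm β x) = p.1.f j (.pm β x)

theorem grow {p q : Cd g} (h : q ≤ p) {j : J} {s : Node} {F F' : Finset Node} {a a' : ℕ}
    (hp : p.1.f j (.nd s) = some (F, a)) (hq : q.1.f j (.nd s) = some (F', a')) :
    F ⊆ F' ∧ a' = a ∧ ∀ t ∈ F', t ∉ F → p.1.f j (.nd t) = none := by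
  obtain ⟨F'', h1, h2, h3⟩ := (h j).1 s F a hp
  rw [hq] at h1
  obtain ⟨rfl, rfl⟩ := Prod.mk.inj (Option.some.inj h1)
  exact ⟨h2, rfl, fun t ht ht' => (h3 t ht ht').1⟩

theorem fill_fin {j : J} {ζ : K1} (IH : ∀ b < ζ, FillAt g j b) (p : Cd g) {s : Node}
    {F : Finset Node} {a : ℕ} (hs : p.1.f j (.nd s) = some (F, a)) (hζ : ζ ≤ s.1)
    (B : Finset K1) (hB : ∀ b ∈ B, b < ζ) :
    ∃ q : Cd g, q ≤ p ∧ ∃ F', q.1.f j (.nd s) = some (F', a) ∧ (∀ b ∈ B, ∃ t ∈ F', t.1 = b) ∧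
      (∀ x, q.1.f j (.nd x) ≠ none → p.1.f j (.nd x) ≠ none ∨ x.1 < ζ) ∧
      ∀ β x, q.1.f j (.pm β x) = p.1.f j (.pm β x) := by
  classical
  induction B using Finset.induction_on with
  | empty => exact ⟨p, le_rfl, F, hs, by simp, fun _ h => Or.inl h, fun _ _ => rfl⟩
  | insert b B _ ih =>
    obtain ⟨q, h1, F', h2, h3, h4, h5⟩ := ih fun b' hb' => hB b' (Finset.mem_insert_of_mem hb')
    have hb : b < ζ := hB b (Finset.mem_insert_self _ _)
    obtain ⟨q', h6, F'', h7, h8, h9, h10⟩ := IH b hb q s F' a h2 (hb.trans_le hζ)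
    refine ⟨q', h6.trans h1, F'', h7, fun b' hb' => ?_, fun x hx => ?_, fun β x => ?_⟩
    · rcases Finset.mem_insert.1 hb' with rfl | hb'
      · exact h8
      · obtain ⟨t, ht, ht'⟩ := h3 b' hb'
        exact ⟨t, (grow h6 h2 h7).1 ht, ht'⟩
    · rcases h9 x hx with h | h
      · exact h4 x h
      · exact Or.inr (h.trans_lt hb)
    · rw [h10, h5]

theorem exists_lowest (s : Node) (F : Finset Node) (ξ : K1) (hs : ξ < s.1) :
    ∃ r : Node, (r = s ∨ r ∈ F) ∧ ξ < r.1 ∧ ∀ y, (y = s ∨ y ∈ F) → ξ < y.1 → r.1 ≤ y.1 := by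
  classical
  obtain ⟨r, hr, hmin⟩ := Finset.exists_min_image ((insert s F).filter fun y => ξ < y.1)
    (fun y => y.1) ⟨s, Finset.mem_filter.2 ⟨Finset.mem_insert_self _ _, hs⟩⟩
  rw [Finset.mem_filter, Finset.mem_insert] at hr
  refine ⟨r, hr.1, hr.2, fun y hy hξ => hmin y ?_⟩
  rw [Finset.mem_filter, Finset.mem_insert]
  exact ⟨hy, hξ⟩

open Classical in
theorem fillAt (j : J) (ξ : K1) : FillAt g j ξ := by
  induction ξ using WellFoundedLT.induction with
  | ind ξ IH =>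
    intro p s F a hs hξ
    by_cases hdone : ∃ t ∈ F, t.1 = ξ
    · exact ⟨p, le_rfl, F, hs, hdone, fun _ h => Or.inl h, fun _ _ => rfl⟩
    obtain ⟨r, hr, hrξ, hrmin⟩ := exists_lowest s F ξ hξ
    -- the promises at `r`
    have hDfin : {β : L | p.1.f j (.pm β r) ≠ none}.Finite := by
      refine ((fin_at p.1 j).preimage (f := fun β => Tag.pm β r) ?_)
      intro x _ y _ h
      simpa using h
    set D := hDfin.toFinset with hD
    have hmemD : ∀ β, β ∈ D ↔ p.1.f j (.pm β r) ≠ none := fun β => by simp [hD]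
    have hOK : ∀ β ∈ D, OKn (g β) (Data g j) := fun β hβ => ((p.2 j).2.1 β r ((hmemD β).1 hβ)).1
    obtain ⟨q0, h1, h2, B, hB⟩ := decide_fin_finset p j hrξ D hOK
    have hs0 : q0.1.f j (.nd s) = some (F, a) := by rw [h2 j le_rfl]; exact hs
    obtain ⟨q1, h3, F1, h4, h5, h6, h7⟩ := fill_fin (ζ := ξ) IH q0 hs0 hξ.le
      (B.filter fun b => b < ξ) fun b hb => (Finset.mem_filter.1 hb).2
    have h31 : q1 ≤ p := h3.trans h1
    have hgrow := grow h31 hs h4
    have hpm : ∀ β x, q1.1.f j (.pm β x) = p.1.f j (.pm β x) := fun β x => by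
      rw [h7, h2 j le_rfl]
    have hnd : ∀ x, q1.1.f j (.nd x) ≠ none → p.1.f j (.nd x) ≠ none ∨ x.1 < ξ := fun x hx => by
      rcases h6 x hx with h | h
      · left; rw [← h2 j le_rfl]; exact h
      · exact Or.inr h
    by_cases hdone1 : ∃ t ∈ F1, t.1 = ξ
    · refine ⟨q1, h31, F1, h4, hdone1, fun x hx => ?_, hpm⟩
      rcases hnd x hx with h | h
      · exact Or.inl h
      · exact Or.inr h.le
    have hno : ∀ t ∈ F1, t.1 ≠ ξ := fun t ht h => hdone1 ⟨t, ht, h⟩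
    have hT := (q1.2 j).1 s F1 a h4
    -- the node `r` in `q1`
    obtain ⟨Fr, ar, hFr, hFrF⟩ : ∃ Fr ar, q1.1.f j (.nd r) = some (Fr, ar) ∧
        ∀ y, y ∈ Fr ↔ y ∈ F1 ∧ y.1 < r.1 := by
      rcases hr with rfl | hr
      · exact ⟨F1, a, h4, fun y => ⟨fun hy => ⟨hy, (hT y hy).1⟩, fun hy => hy.1⟩⟩
      · obtain ⟨_, ⟨b, hb, _⟩, _⟩ := hT r (hgrow.1 hr)
        exact ⟨_, b, hb, fun y => Finset.mem_filter⟩
    have hrs : r.1 ≤ s.1 := by
      rcases hr with rfl | hr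
      · exact le_rfl
      · exact (hT r (hgrow.1 hr)).1.le
    have hlow : ∀ y ∈ Fr, y.1 < ξ := by
      intro y hy
      obtain ⟨hy1, hy2⟩ := (hFrF y).1 hy
      by_contra hcon
      have hy3 : ξ < y.1 := lt_of_le_of_ne (not_lt.1 hcon) (hno y hy1).symm
      have hyN : q1.1.f j (.nd y) ≠ none := by
        obtain ⟨_, ⟨b, hb, _⟩, _⟩ := hT y hy1
        rw [hb]; simp
      have hyp : p.1.f j (.nd y) ≠ none := (hnd y hyN).resolve_right (not_lt.2 hy3.le)
      have hyF : y ∈ F := by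
        by_contra h
        exact hyp (hgrow.2.2 y hy1 h)
      exact absurd (hrmin y (Or.inr hyF) hy3) (not_le.2 hy2)
    have hfill : ∀ β, p.1.f j (.pm β r) ≠ none → ∀ ξ' < ξ, (∀ t ∈ Fr, t.1 ≠ ξ') → ∀ k,
        ∀ e ∈ g β r.1 ξ' k, ¬ CC g j q1.1 e := by
      intro β hβ ξ' hξ' ht k e he hc
      refine hB β ((hmemD β).2 hβ) ξ' hξ' (fun hξB => ?_) k e he (CC_of_le h3 hc)
      obtain ⟨t, ht1, ht2⟩ := h5 ξ' (Finset.mem_filter.2 ⟨hξB, hξ'⟩)
      exact ht t ((hFrF t).2 ⟨ht1, by rw [ht2]; exact hξ'.trans hrξ⟩) ht2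
    -- decide the values
    obtain ⟨q2, h8, h9, K, hK⟩ := decide_val_finset q1 j r.1 ξ D hOK
    have hr2 : q2.1.f j (.nd r) = some (Fr, ar) := by rw [h9 j le_rfl]; exact hFr
    have hpm2 : ∀ β x, q2.1.f j (.pm β x) = p.1.f j (.pm β x) := fun β x => by
      rw [h9 j le_rfl, hpm]
    obtain ⟨q3, h10, m, h11, h12, h13, _⟩ := insert_node q2 hr2 hrξ hlow K
      (fun β hβ k e he hc => hK β ((hmemD β).2 (by rw [← hpm2]; exact hβ)) k e he hc)
      (fun β hβ ξ' hξ' ht k e he hc => hfill β (by rw [← hpm2]; exact hβ) ξ' hξ' ht k e he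
        (CC_of_le h8 hc))
    have hs2 : q2.1.f j (.nd s) = some (F1, a) := by rw [h9 j le_rfl]; exact h4
    have hsr : s = r ∨ r ∈ F1 := by
      rcases hr with rfl | hr
      · exact Or.inl rfl
      · exact Or.inr (hgrow.1 hr)
    refine ⟨q3, h10.trans (h8.trans h31), insert (ξ, m) F1, ?_,
      ⟨(ξ, m), Finset.mem_insert_self _ _, rfl⟩, fun x hx => ?_, fun β x => ?_⟩
    · rw [h11 s F1 a hs2, if_pos hsr]
    · rcases h13 x hx with h | h
      · rw [h9 j le_rfl] at h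
        rcases hnd x h with h' | h'
        · exact Or.inl h'
        · exact Or.inr h'.le
      · right; rw [h]
    · rw [h12, hpm2]

/-- every node has predecessors of all smaller levels -/
theorem exists_pred (p : Cd g) {j : J} {s : Node} {F : Finset Node} {a : ℕ}
    (hs : p.1.f j (.nd s) = some (F, a)) {ξ : K1} (hξ : ξ < s.1) :
    ∃ q : Cd g, q ≤ p ∧ ∃ F', q.1.f j (.nd s) = some (F', a) ∧ ∃ t ∈ F', t.1 = ξ := by
  obtain ⟨q, h1, F', h2, h3, _⟩ := fillAt j ξ p s F a hs hξ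
  exact ⟨q, h1, F', h2, h3⟩

/-! ### Adding promises -/

open Classical in
theorem add_tag_aux (p : Cd g) (j : J) (τ : Tag L) (hτ : ∀ x, τ ≠ .nd x)
    (hn : p.1.f j τ = none) (k : ℕ)
    (hpm : ∀ β s, τ = .pm β s → OKn (g β) (Data g j) ∧ ∃ F a, p.1.f j (.nd s) = some (F, a) ∧
      ∀ r ∈ F, ∀ ξ < r.1, (∀ t ∈ F, t.1 ≠ ξ) → ∀ k, ∀ e ∈ g β s.1 ξ k, ¬ CC g j p.1 e) :
    ∃ q : Cd g, q ≤ p ∧ q.1.f j τ = some (∅, k) ∧ (∀ τ', τ' ≠ τ → q.1.f j τ' = p.1.f j τ') ∧
      ∀ i, i ≠ j → q.1.f i = p.1.f i := by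
  set u : Tag L → Option Val := fun τ' => if τ' = τ then some (∅, k) else p.1.f j τ' with hu
  have hself : u τ = some (∅, k) := if_pos rfl
  have hne : ∀ τ', τ' ≠ τ → u τ' = p.1.f j τ' := fun τ' h => if_neg h
  have hfin : {τ' | u τ' ≠ none}.Finite := by
    refine ((fin_at p.1 j).union (Set.finite_singleton τ)).subset fun τ' hτ' => ?_
    by_cases h : τ' = τ
    · right; exact h
    · left
      have : u τ' ≠ none := hτ'
      rwa [hne τ' h] at this
  have hold : ∀ τ' v, p.1.f j τ' = some v → u τ' = some v := by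
    intro τ' v h
    rw [hne τ', h]
    rintro rfl
    rw [hn] at h
    exact absurd h (by simp)
  have hnd : ∀ x, u (.nd x) = p.1.f j (.nd x) := fun x => hne _ (hτ x).symm
  obtain ⟨hT, hP, hO⟩ := p.2 j
  have hvl : Vl g j (setAt p.1 j u hfin) := by
    refine ⟨fun x F a hx y hy => ?_, fun β s hs => ?_, fun τ' hτ' v hv => ?_⟩
    · rw [setAt_self] at hx ⊢
      rw [hnd] at hx ⊢
      exact hT x F a hx y hy
    · rw [setAt_self] at hs ⊢
      by_cases h : Tag.pm β s = τ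
      · obtain ⟨h1, F, a, h2, h3⟩ := hpm β s h.symm
        refine ⟨h1, F, a, by rw [hnd, h2], fun r hr ξ hξ ht k e he hc => ?_⟩
        exact h3 r hr ξ hξ ht k e he (CC_setAt.1 hc)
      · rw [hne _ h] at hs
        obtain ⟨h1, F, a, h2, h3⟩ := hP β s hs
        refine ⟨h1, F, a, by rw [hnd, h2], fun r hr ξ hξ ht k e he hc => ?_⟩
        exact h3 r hr ξ hξ ht k e he (CC_setAt.1 hc)
    · rw [setAt_self] at hv
      by_cases h : τ' = τ
      · subst h
        rw [hself] at hv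
        rw [← Option.some.inj hv]
      · rw [hne _ h] at hv
        exact hO τ' hτ' v hv
  have hle : Le g j (setAt p.1 j u hfin) p.1 := by
    rw [Le_iff]
    refine ⟨fun x F a hx => ⟨F, ?_, subset_rfl, fun t ht h => absurd ht h⟩, fun τ' _ v hv => ?_⟩
    · rw [setAt_self]; exact hold _ _ hx
    · rw [setAt_self]; exact hold _ _ hv
  obtain ⟨q, h1, h2, h3⟩ := setAt_ok p hfin hle hvl
  exact ⟨q, h1, by rw [h2]; exact hself, fun τ' h => by rw [h2]; exact hne τ' h, h3⟩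

/-- a promise can be added at every node of a condition -/
theorem add_pm (p : Cd g) {j : J} {β : L} {s : Node} {F : Finset Node} {a : ℕ}
    (hs : p.1.f j (.nd s) = some (F, a)) (hOK : OKn (g β) (Data g j)) :
    ∃ q : Cd g, q ≤ p ∧ q.1.f j (.pm β s) ≠ none := by
  classical
  by_cases hn : p.1.f j (.pm β s) = none
  swap
  · exact ⟨p, le_rfl, hn⟩
  by_cases hF : F.Nonempty
  · obtain ⟨z, hz, hmax⟩ := Finset.exists_max_image F (fun y => y.1) hF
    have hzs : z.1 < s.1 := ((p.2 j).1 s F a hs z hz).1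
    obtain ⟨q0, h1, h2, B, hB⟩ := decide_fin p j hOK hzs
    have hs0 : q0.1.f j (.nd s) = some (F, a) := by rw [h2 j le_rfl]; exact hs
    obtain ⟨q1, h3, F1, h4, h5, h6, h7⟩ := fill_fin (ζ := z.1) (fun b _ => fillAt j b) q0 hs0 hzs.le
      (B.filter fun b => b < z.1) fun b hb => (Finset.mem_filter.1 hb).2
    have hgrow := grow h3 hs0 h4
    have hT := (q1.2 j).1 s F1 a h4
    have hle : ∀ r ∈ F1, r.1 ≤ z.1 := by
      intro r hr
      have hrN : q1.1.f j (.nd r) ≠ none := by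
        obtain ⟨_, ⟨b, hb, _⟩, _⟩ := hT r hr
        rw [hb]; simp
      rcases h6 r hrN with h | h
      · refine hmax r ?_
        by_contra hcon
        exact h (hgrow.2.2 r hr hcon)
      · exact h.le
    obtain ⟨q2, h8, h9, _⟩ := add_tag_aux q1 j (.pm β s) (by simp)
      (by rw [h7, h2 j le_rfl]; exact hn) 0 (by
        intro β' s' h
        obtain ⟨rfl, rfl⟩ : β = β' ∧ s = s' := by simpa using h
        refine ⟨hOK, F1, a, h4, fun r hr ξ hξ ht k e he hc => ?_⟩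
        have hξz : ξ < z.1 := hξ.trans_le (hle r hr)
        refine hB ξ hξz (fun hξB => ?_) k e he (CC_of_le h3 hc)
        obtain ⟨t, ht1, ht2⟩ := h5 ξ (Finset.mem_filter.2 ⟨hξB, hξz⟩)
        exact ht t ht1 ht2)
    exact ⟨q2, h8.trans (h3.trans h1), by rw [h9]; simp⟩
  · rw [Finset.not_nonempty_iff_eq_empty] at hF
    subst hF
    obtain ⟨q2, h8, h9, _⟩ := add_tag_aux p j (.pm β s) (by simp) hn 0 (by
        intro β' s' h
        obtain ⟨rfl, rfl⟩ : β = β' ∧ s = s' := by simpa using h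
        exact ⟨hOK, ∅, a, hs, fun r hr => absurd hr (Finset.notMem_empty r)⟩)
    exact ⟨q2, h8, by rw [h9]; simp⟩

/-- values of the generic functions can be added -/
theorem add_ph (p : Cd g) {j : J} {β : L} {s : Node} (hn : p.1.f j (.ph β s) = none) (k : ℕ) :
    ∃ q : Cd g, q ≤ p ∧ q.1.f j (.ph β s) = some (∅, k) := by
  obtain ⟨q, h1, h2, _⟩ := add_tag_aux p j (.ph β s) (by simp) hn k (by simp)
  exact ⟨q, h1, h2⟩

/-- values of the Cohen functions can be added -/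
theorem add_co (p : Cd g) {j : J} {α ξ : K1} (hn : p.1.f j (.co α ξ) = none) (k : ℕ) :
    ∃ q : Cd g, q ≤ p ∧ q.1.f j (.co α ξ) = some (∅, k) ∧
      (∀ τ', τ' ≠ .co α ξ → q.1.f j τ' = p.1.f j τ') ∧ ∀ i, i ≠ j → q.1.f i = p.1.f i :=
  add_tag_aux p j (.co α ξ) (by simp) hn k (by simp)

/-! ### Adding nodes which are not below old nodes -/

open Classical in
theorem add_nd_aux (p : Cd g) (j : J) (y : Node) (hn : p.1.f j (.nd y) = none) (G : Finset Node)
    (hG : ∀ z ∈ G, z.1 < y.1 ∧ (∃ b, p.1.f j (.nd z) = some (G.filter (fun w => w.1 < z.1), b)) ∧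
      ∀ w ∈ G, w.1 = z.1 → w = z) :
    ∃ q : Cd g, q ≤ p ∧ ∃ c, q.1.f j (.nd y) = some (G, c) := by
  obtain ⟨c, hc⟩ := exists_colour p.1 j
  set u : Tag L → Option Val := fun τ' => if τ' = .nd y then some (G, c) else p.1.f j τ' with hu
  have hself : u (.nd y) = some (G, c) := if_pos rfl
  have hne : ∀ τ', τ' ≠ .nd y → u τ' = p.1.f j τ' := fun τ' h => if_neg h
  have hfin : {τ' | u τ' ≠ none}.Finite := by
    refine ((fin_at p.1 j).union (Set.finite_singleton (.nd y))).subset fun τ' hτ' => ?_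
    by_cases h : τ' = .nd y
    · right; exact h
    · left
      have : u τ' ≠ none := hτ'
      rwa [hne τ' h] at this
  have hold : ∀ τ' v, p.1.f j τ' = some v → u τ' = some v := by
    intro τ' v h
    rw [hne τ', h]
    rintro rfl
    rw [hn] at h
    exact absurd h (by simp)
  obtain ⟨hT, hP, hO⟩ := p.2 j
  have hvl : Vl g j (setAt p.1 j u hfin) := by
    refine ⟨fun x F a hx z hz => ?_, fun β s hs => ?_, fun τ' hτ' v hv => ?_⟩
    · rw [setAt_self] at hx ⊢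
      by_cases hxy : x = y
      · subst hxy
        rw [hself] at hx
        obtain ⟨rfl, rfl⟩ := Prod.mk.inj (Option.some.inj hx)
        obtain ⟨h1, ⟨b, h2⟩, h3⟩ := hG z hz
        exact ⟨h1, ⟨b, hold _ _ h2, hc _ _ _ h2⟩, h3⟩
      · rw [hne _ (by simpa using hxy)] at hx
        obtain ⟨h1, ⟨b, h2, h3⟩, h4⟩ := hT x F a hx z hz
        exact ⟨h1, ⟨b, hold _ _ h2, h3⟩, h4⟩
    · rw [setAt_self] at hs ⊢
      rw [hne _ (by simp)] at hs
      obtain ⟨h1, F, a, h2, h3⟩ := hP β s hs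
      refine ⟨h1, F, a, hold _ _ h2, fun r hr ξ hξ ht k e he hc => ?_⟩
      exact h3 r hr ξ hξ ht k e he (CC_setAt.1 hc)
    · rw [setAt_self] at hv
      rw [hne _ (hτ' y)] at hv
      exact hO τ' hτ' v hv
  have hle : Le g j (setAt p.1 j u hfin) p.1 := by
    rw [Le_iff]
    refine ⟨fun x F a hx => ⟨F, ?_, subset_rfl, fun t ht h => absurd ht h⟩, fun τ' _ v hv => ?_⟩
    · rw [setAt_self]; exact hold _ _ hx
    · rw [setAt_self]; exact hold _ _ hv
  obtain ⟨q, h1, h2, h3⟩ := setAt_ok p hfin hle hvl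
  exact ⟨q, h1, c, by rw [h2]; exact hself⟩

/-- every node can be added -/
theorem add_nd (p : Cd g) (j : J) (y : Node) :
    ∃ q : Cd g, q ≤ p ∧ ∃ F c, q.1.f j (.nd y) = some (F, c) := by
  by_cases hn : p.1.f j (.nd y) = none
  · obtain ⟨q, h1, c, h2⟩ := add_nd_aux p j y hn ∅ (by simp)
    exact ⟨q, h1, ∅, c, h2⟩
  · obtain ⟨⟨F, c⟩, h⟩ := Option.ne_none_iff_exists'.1 hn
    exact ⟨p, le_rfl, F, c, h⟩

/-- every node has extensions of all larger levels -/
theorem add_top (p : Cd g) {j : J} {s : Node} {F : Finset Node} {a : ℕ}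
    (hs : p.1.f j (.nd s) = some (F, a)) {η : K1} (hη : s.1 < η) :
    ∃ q : Cd g, q ≤ p ∧ ∃ y : Node, y.1 = η ∧ ∃ G c, q.1.f j (.nd y) = some (G, c) ∧ s ∈ G := by
  classical
  obtain ⟨m, hm, _⟩ := exists_fresh p.1 j η
  have hT := (p.2 j).1 s F a hs
  obtain ⟨q, h1, c, h2⟩ := add_nd_aux p j (η, m) hm (insert s F) (by
    intro z hz
    rcases Finset.mem_insert.1 hz with rfl | hz
    · refine ⟨hη, ⟨a, ?_⟩, fun w hw hwz => ?_⟩
      · rw [Finset.filter_insert, if_neg (lt_irrefl _), Finset.filter_true_of_mem, hs]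
        exact fun w hw => (hT w hw).1
      · rcases Finset.mem_insert.1 hw with rfl | hw
        · rfl
        · have := (hT w hw).1
          rw [hwz] at this
          exact absurd this (lt_irrefl _)
    · obtain ⟨h1, ⟨b, h2, _⟩, h3⟩ := hT z hz
      refine ⟨h1.trans hη, ⟨b, ?_⟩, fun w hw hwz => ?_⟩
      · rw [Finset.filter_insert, if_neg (not_lt.2 h1.le), h2]
      · rcases Finset.mem_insert.1 hw with rfl | hw
        · rw [hwz] at h1
          exact absurd h1 (lt_irrefl _)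
        · exact h3 w hw hwz)
  exact ⟨q, h1, (η, m), rfl, _, c, h2, Finset.mem_insert_self _ _⟩

end Pool.Agent.Helper126.Lam.Dense
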