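import Mathlib
import Pool.Agent.Helper126.Lam.Dense
import Pool.Agent.Helper126.Lam.Ccc

/-!
# The generic trees and their uniformizing functions
-/

namespace Pool.Agent.Helper126.Lam.Names

open Cardinal Pool.Agent.Helper126.Lam.Forc Pool.Agent.Helper126.Lam.Poset
  Pool.Agent.Helper126.Lam.Insert Pool.Agent.Helper126.Lam.Dense Pool.Agent.Helper126.Lam.Ccc

set_option linter.unusedSectionVars false

theorem mk_K1 : #K1 = ℵ_ 1 := by rw [mk_toType, card_ord]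

theorem exists_equiv : Nonempty (K1 ≃ Node) := by
  apply Cardinal.eq.1
  rw [mk_prod, lift_id, lift_id, mk_K1, mk_nat]
  exact (mul_aleph0_eq (aleph0_le_aleph 1)).symm

/-- a numbering of the nodes by the countable ordinals -/
noncomputable def en : K1 ≃ Node := exists_equiv.some

variable {J L : Type} {g : L → K1 → K1 → ℕ → Set (Rep J L)} [LinearOrder J] [WellFoundedLT J]

/-- the order of the generic tree -/
def Tlt (g : L → K1 → K1 → ℕ → Set (Rep J L)) (j : J) (x y : K1) : Set (Cd g) :=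
  {p | ∃ F a, p.1.f j (.nd (en y)) = some (F, a) ∧ en x ∈ F}

/-- the height function -/
def Tht (g : L → K1 → K1 → ℕ → Set (Rep J L)) (x ξ : K1) : Set (Cd g) := {_p | (en x).1 = ξ}

/-- the generic functions -/
def Tph (g : L → K1 → K1 → ℕ → Set (Rep J L)) (j : J) (β : L) (x : K1) (k : ℕ) : Set (Cd g) :=
  {p | ∃ v, p.1.f j (.ph β (en x)) = some v ∧ v.2 = k}

theorem down_Tlt (j : J) (x y : K1) : Down (Tlt g j x y) := by
  rintro p ⟨F, a, h1, h2⟩ q hq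
  obtain ⟨F', h3, h4, _⟩ := (hq j).1 _ F a h1
  exact ⟨F', a, h3, h4 h2⟩

theorem down_Tht (x ξ : K1) : Down (Tht g x ξ) := fun _ hp _ _ => hp

theorem down_Tph (j : J) (β : L) (x : K1) (k : ℕ) : Down (Tph g j β x k) := by
  rintro p ⟨v, h1, h2⟩ q hq
  exact ⟨v, (hq j).2 _ (by simp) v h1, h2⟩

theorem of_Tht {p : Cd g} {x ξ : K1} (h : p ∈ meets (Tht g x ξ)) : (en x).1 = ξ := by
  obtain ⟨r, _, h'⟩ := exists_of_meets (down_Tht x ξ) h
  exact h'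

theorem to_Tht {p : Cd g} {x ξ : K1} (h : (en x).1 = ξ) : p ∈ meets (Tht g x ξ) :=
  meets_of_mem h

theorem isFun_Tht (p : Cd g) : p ∈ IsFun (Tht g) := by
  refine ⟨fun x => mem_fex_of_mem (en x).1 (down_meets _) (to_Tht rfl), fun x y y' => ?_⟩
  refine mem_fimp.2 fun q _ h => ⟨q, le_rfl, ?_⟩
  exact (of_Tht h.1).symm.trans (of_Tht h.2)

/-- the predecessors of a predecessor -/
theorem pred_trans {p : Cd g} {j : J} {x : Node} {F : Finset Node} {a : ℕ}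
    (hx : p.1.f j (.nd x) = some (F, a)) {y : Node} (hy : y ∈ F) : ∃ G b,
      p.1.f j (.nd y) = some (G, b) ∧ (∀ z, z ∈ G ↔ z ∈ F ∧ z.1 < y.1) ∧ b ≠ a ∧ y.1 < x.1 ∧
        ∀ z ∈ F, z.1 = y.1 → z = y := by
  classical
  obtain ⟨h1, ⟨b, h2, h3⟩, h4⟩ := (p.2 j).1 x F a hx y hy
  exact ⟨_, b, h2, fun z => Finset.mem_filter, h3, h1, h4⟩

theorem isTree (j : J) (p : Cd g) : p ∈ IsTree (Tlt g j) (Tht g) := by
  refine ⟨⟨isFun_Tht p, fun x y z => mem_fimp.2 fun q _ h => ?_⟩,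
    ⟨fun x y ξ η => mem_fimp.2 fun q _ h => ?_, fun x y z ξ => mem_fimp.2 fun q _ h => ?_⟩,
    fun y ξ η => mem_fimp.2 fun q _ h => ?_, fun ξ => ?_⟩
  · obtain ⟨q1, hq1, F, a, h1, h2⟩ := exists_of_meets (down_Tlt j y z) h.2
    obtain ⟨q2, hq2, G, b, h3, h4⟩ := exists_of_meets (down_Tlt j x y) (down_meets _ _ h.1 q1 hq1)
    obtain ⟨F', h5, h6, _⟩ := (hq2 j).1 _ F a h1
    obtain ⟨G', b', h7, h8, _⟩ := pred_trans h5 (h6 h2)
    rw [h3] at h7
    obtain ⟨rfl, rfl⟩ := Prod.mk.inj (Option.some.inj h7)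
    exact ⟨q2, hq2.trans hq1, meets_of_mem ⟨F', a, h5, ((h8 _).1 h4).1⟩⟩
  · obtain ⟨q1, hq1, F, a, h1, h2⟩ := exists_of_meets (down_Tlt j x y) h.1
    obtain ⟨_, _, _, _, _, h3, _⟩ := pred_trans h1 h2
    refine ⟨q, le_rfl, ?_⟩
    show ξ < η
    rw [← of_Tht h.2.1, ← of_Tht h.2.2]
    exact h3
  · obtain ⟨q1, hq1, F, a, h1, h2⟩ := exists_of_meets (down_Tlt j x z) h.1.1
    obtain ⟨q2, hq2, G, b, h3, h4⟩ :=
      exists_of_meets (down_Tlt j y z) (down_meets _ _ h.1.2 q1 hq1)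
    obtain ⟨F', h5, h6, _⟩ := (hq2 j).1 _ F a h1
    rw [h3] at h5
    obtain ⟨rfl, rfl⟩ := Prod.mk.inj (Option.some.inj h5)
    obtain ⟨_, _, _, _, _, _, h7⟩ := pred_trans h3 h4
    refine ⟨q, le_rfl, ?_⟩
    show x = y
    apply en.injective
    refine h7 _ (h6 h2) ?_
    rw [of_Tht h.2.1, of_Tht h.2.2]
  · obtain ⟨h1, h2⟩ := h
    have h1' := of_Tht h1
    have h2' : ξ < η := h2
    refine ⟨q, le_rfl, mem_fex.2 fun q' _ => ?_⟩
    obtain ⟨q1, hq1, F, a, h3⟩ := add_nd q' j (en y)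
    obtain ⟨q2, hq2, F', h4, t, ht, htξ⟩ := exists_pred q1 h3 (ξ := ξ) (by rw [h1']; exact h2')
    refine ⟨q2, hq2.trans hq1, en.symm t, meets_of_mem ⟨F', a, h4, ?_⟩, to_Tht ?_⟩
    · rw [Equiv.apply_symm_apply]; exact ht
    · rw [Equiv.apply_symm_apply]; exact htξ
  · refine mem_fex_of_mem (en.symm (ξ, 0)) (down_meets _) (to_Tht ?_)
    rw [Equiv.apply_symm_apply]

theorem countableLevels (p : Cd g) : p ∈ CountableLevels (Tht g) := by
  intro ξ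
  refine mem_fex_of_mem (fun n x => {_p | en x = (ξ, n)}) ?_ ⟨fun n x y => ?_, fun x => ?_⟩
  · exact down_fand (down_fall fun _ => down_fall fun _ => down_fall fun _ => down_fimp _ _)
      (down_fall fun _ => down_fimp _ _)
  · refine mem_fimp.2 fun q _ h => ⟨q, le_rfl, ?_⟩
    obtain ⟨r, _, s, hs, _⟩ := h.1 q le_rfl
    obtain ⟨r', _, s', hs', _⟩ := h.2 q le_rfl
    have h1 : en x = (ξ, n) := hs
    have h2 : en y = (ξ, n) := hs'
    exact en.injective (h1.trans h2.symm)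
  · refine mem_fimp.2 fun q _ h => ⟨q, le_rfl, ?_⟩
    have h1 := of_Tht h
    refine mem_fex_of_mem (en x).2 (down_meets _) (meets_of_mem ?_)
    show en x = (ξ, (en x).2)
    rw [← h1]

theorem not_countable_K1 : ¬ Countable K1 := by
  rw [← mk_le_aleph0_iff, mk_K1, not_le]
  exact aleph0_lt_aleph_one

/-- an uncountable set divided into countably many pieces -/
theorem exists_uncountable_fiber {Y : Type} (hY : ¬ Countable Y) (c : Y → ℕ) :
    ∃ n, ¬ Countable {y // c y = n} := by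
  by_contra hcon
  push Not at hcon
  apply hY
  have h1 : (Set.univ : Set Y) = ⋃ n, {y | c y = n} := by
    ext y; simp
  have h2 : (Set.univ : Set Y).Countable := by
    rw [h1]
    exact Set.countable_iUnion fun n => (hcon n : Countable _)
  exact Set.countable_univ_iff.1 h2

theorem noBranch (j : J) (p : Cd g) : p ∈ NoBranch (Tlt g j) (Tht g) := by
  intro q _ hq
  obtain ⟨r, _, B, hB1, hB2⟩ := mem_fex.1 hq q le_rfl
  choose r1 hr1 x hx1 hx2 using fun ξ => mem_fex.1 (hB2 ξ) r le_rfl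
  choose s hs F c hc using fun ξ => add_nd (r1 ξ) j (en (x ξ))
  have hlev : ∀ ξ, (en (x ξ)).1 = ξ := fun ξ => of_Tht (hx2 ξ)
  obtain ⟨n, hn⟩ := exists_uncountable_fiber not_countable_K1 c
  obtain ⟨ξ, ξ', hne, t, ht1, ht2⟩ := cond_ccc (fun y : {y // c y = n} => s y.1) hn
  have hne' : ξ.1 ≠ ξ'.1 := fun h => hne (Subtype.ext h)
  have hxne : x ξ.1 ≠ x ξ'.1 := fun h => hne' (by rw [← hlev ξ.1, ← hlev ξ'.1, h])
  have hb1 : t ∈ meets (B (x ξ.1)) := down_meets _ _ (hx1 ξ.1) t (ht1.trans (hs ξ.1))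
  have hb2 : t ∈ meets (B (x ξ'.1)) := down_meets _ _ (hx1 ξ'.1) t (ht2.trans (hs ξ'.1))
  have htr : t ≤ r := ht1.trans ((hs ξ.1).trans (hr1 ξ.1))
  have hcol : ∀ (ζ : {y // c y = n}) (u : Cd g), u ≤ s ζ.1 → ∃ G, u.1.f j (.nd (en (x ζ.1))) =
      some (G, n) := by
    intro ζ u hu
    obtain ⟨G, hG, _⟩ := (hu j).1 _ _ _ (hc ζ.1)
    exact ⟨G, by rw [hG, ζ.2]⟩
  have key : ∀ (ζ ζ' : {y // c y = n}) (u : Cd g), u ≤ s ζ.1 → u ≤ s ζ'.1 →
      u ∉ meets (Tlt g j (x ζ.1) (x ζ'.1)) := by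
    intro ζ ζ' u h1 h2 h3
    obtain ⟨v, hv, G, a, h4, h5⟩ := exists_of_meets (down_Tlt j _ _) h3
    obtain ⟨G1, hG1⟩ := hcol ζ v (hv.trans h1)
    obtain ⟨G2, hG2⟩ := hcol ζ' v (hv.trans h2)
    rw [h4] at hG2
    obtain ⟨rfl, rfl⟩ := Prod.mk.inj (Option.some.inj hG2)
    obtain ⟨G3, b, h6, _, h7, _⟩ := pred_trans h4 h5
    rw [hG1] at h6
    exact h7 (Prod.mk.inj (Option.some.inj h6)).2.symm
  obtain ⟨u, hu, hu'⟩ := mem_fimp.1 (hB1 (x ξ.1) (x ξ'.1) hxne) t htr ⟨hb1, hb2⟩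
  have hu'' := hu' u le_rfl
  rw [mem_fand, not_and_or] at hu''
  rcases hu'' with h | h
  · simp only [fnot, Set.mem_ofPred_eq, not_forall, not_not] at h
    obtain ⟨v, hv, hv'⟩ := h
    exact key ξ ξ' v (hv.trans (hu.trans ht1)) (hv.trans (hu.trans ht2)) hv'
  · simp only [fnot, Set.mem_ofPred_eq, not_forall, not_not] at h
    obtain ⟨v, hv, hv'⟩ := h
    exact key ξ' ξ v (hv.trans (hu.trans ht2)) (hv.trans (hu.trans ht1)) hv'

theorem pruned (j : J) (p : Cd g) : p ∈ Pruned (Tlt g j) (Tht g) := by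
  refine fun x ξ η => mem_fimp.2 fun q _ h => ⟨q, le_rfl, mem_fex.2 fun q' _ => ?_⟩
  obtain ⟨h1, h2⟩ := h
  have h1' := of_Tht h1
  have h2' : ξ < η := h2
  obtain ⟨q1, hq1, F, a, h3⟩ := add_nd q' j (en x)
  obtain ⟨q2, hq2, y, hy, G, c, h4, h5⟩ := add_top q1 h3 (η := η) (by rw [h1']; exact h2')
  refine ⟨q2, hq2.trans hq1, en.symm y, meets_of_mem ⟨G, c, ?_, h5⟩, to_Tht ?_⟩
  · rw [Equiv.apply_symm_apply]; exact h4
  · rw [Equiv.apply_symm_apply]; exact hy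

theorem isAronszajn (j : J) (p : Cd g) : p ∈ IsAronszajn (Tlt g j) (Tht g) :=
  ⟨isTree j p, countableLevels p, noBranch j p⟩

theorem isFun_Tph (j : J) (β : L) (p : Cd g) : p ∈ IsFun (Tph g j β) := by
  refine ⟨fun x => mem_fex.2 fun q _ => ?_, fun x k k' => mem_fimp.2 fun q _ h => ?_⟩
  · by_cases hn : q.1.f j (.ph β (en x)) = none
    · obtain ⟨r, hr, hr'⟩ := add_ph q hn 0
      exact ⟨r, hr, 0, meets_of_mem ⟨_, hr', rfl⟩⟩
    · obtain ⟨v, hv⟩ := Option.ne_none_iff_exists'.1 hn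
      exact ⟨q, le_rfl, v.2, meets_of_mem ⟨v, hv, rfl⟩⟩
  · obtain ⟨q1, hq1, v, h1, h2⟩ := exists_of_meets (down_Tph j β x k) h.1
    obtain ⟨q2, hq2, v', h3, h4⟩ :=
      exists_of_meets (down_Tph j β x k') (down_meets _ _ h.2 q1 hq1)
    have h5 := (hq2 j).2 _ (by simp) v h1
    rw [h3] at h5
    refine ⟨q, le_rfl, ?_⟩
    show k = k'
    rw [← h2, ← h4, Option.some.inj h5]

theorem CC_of_Le {s : Cd g} {e : Rep J L} (h : ∀ i, Le g i s.1 e) (j : J) : CC g j s.1 e := by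
  rw [CC_iff]
  exact ⟨res s.1 j, below_res _ _, fun i _ => Vl_res s.2 j i,
    fun i hi => Le_res_left (Le_of_eq g rfl) hi, fun i hi => Le_res_left (h i) hi⟩

/-- the function added for the name `g β` uniformizes it -/
theorem uniformizes (j : J) (β : L) (hOK : OKn (g β) (Data g j)) (G : K1 → K1 → ℕ → Set (Cd g))
    (p : Cd g) (hG : ∀ α, Order.IsSuccLimit α → ∀ ξ k, ∀ r ≤ p, r ∈ meets (G α ξ k) →
      ∃ e ∈ g β α ξ k, ∃ s : Cd g, s ≤ r ∧ ∀ i, Le g i s.1 e) :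
    p ∈ Uniformizes (Tlt g j) (Tht g) G (Tph g j β) := by
  classical
  refine ⟨isFun_Tph j β p, fun s α hα => mem_fimp.2 fun q hq h => ?_⟩
  have hlev := of_Tht h
  obtain ⟨q1, hq1, F, a, h1⟩ := add_nd q j (en s)
  obtain ⟨q2, hq2, h2⟩ := add_pm q1 h1 hOK
  obtain ⟨F2, h3, _⟩ := (hq2 j).1 _ F a h1
  refine ⟨q2, hq2.trans hq1, mem_fex_of_mem (F2.image Prod.fst) ?_ ?_⟩
  · exact down_fall fun _ => down_fall fun _ => down_fall fun _ => down_fall fun _ => down_fimp _ _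
  intro ξ hξ k t
  refine mem_fimp.2 fun r hr hh => ?_
  obtain ⟨hh1, hh2, hh3⟩ := hh
  have htlev := of_Tht hh3
  obtain ⟨r1, hr1, F3, a3, h4, h5⟩ := exists_of_meets (down_Tlt j t s) hh2
  obtain ⟨e, he, r2, hr2, hr2e⟩ := hG α hα ξ k r1
    (hr1.trans (hr.trans (hq2.trans (hq1.trans hq)))) (down_meets _ _ hh1 r1 hr1)
  obtain ⟨F4, h6, h7, _⟩ := (hr2 j).1 _ F3 a3 h4
  have hle : r2 ≤ q2 := hr2.trans (hr1.trans hr)
  obtain ⟨F5, h8, _, h9⟩ := (hle j).1 _ F2 a h3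
  rw [h6] at h8
  obtain ⟨rfl, rfl⟩ := Prod.mk.inj (Option.some.inj h8)
  have hnot : en t ∉ F2 := by
    intro hcon
    apply hξ
    rw [← htlev]
    exact Finset.mem_image_of_mem _ hcon
  obtain ⟨v, hv, hvk⟩ := (h9 (en t) (h7 h5) hnot).2 β h2 k e (by rw [hlev, htlev]; exact he)
    (CC_of_Le hr2e j)
  exact ⟨r2, hr2.trans hr1, meets_of_mem ⟨v, hv, hvk⟩⟩

end Pool.Agent.Helper126.Lam.Names
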