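import Mathlib
import Pool.Agent.Helper126.Lam.Names

/-!
# The Cohen colourings form a bad family
-/

namespace Pool.Agent.Helper126.Lam.Cohen

open Cardinal Pool.Agent.Helper126.Lam.Forc Pool.Agent.Helper126.Lam.Poset
  Pool.Agent.Helper126.Lam.Insert Pool.Agent.Helper126.Lam.Dense Pool.Agent.Helper126.Lam.Ccc
  Pool.Agent.Helper126.Lam.Names

set_option linter.unusedSectionVars false

/-! ### Countable ordinals -/

theorem exists_bound (S : Set K1) (hS : S.Countable) : ∃ u, ∀ s ∈ S, s < u := by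
  by_contra hcon
  push Not at hcon
  apply not_countable_K1
  have h1 : (Set.univ : Set K1) = ⋃ s ∈ S, Set.Iic s := by
    ext u
    obtain ⟨s, hs, hu⟩ := hcon u
    simp only [Set.mem_univ, Set.mem_iUnion, true_iff]
    exact ⟨s, hs, hu⟩
  have h2 : (Set.univ : Set K1).Countable := by
    rw [h1]
    refine hS.biUnion fun s _ => ?_
    have : Set.Iic s = insert s (Set.Iio s) := by
      ext x
      simp only [Set.mem_Iic, Set.mem_insert_iff, Set.mem_Iio]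
      exact le_iff_eq_or_lt
    rw [this]
    exact (countable_Iio s).insert s
  exact Set.countable_univ_iff.1 h2

theorem countable_Iic (s : K1) : (Set.Iic s).Countable := by
  have : Set.Iic s = insert s (Set.Iio s) := by
    ext x
    simp only [Set.mem_Iic, Set.mem_insert_iff, Set.mem_Iio]
    exact le_iff_eq_or_lt
  rw [this]
  exact (countable_Iio s).insert s

/-- limit ordinals closed under a given function -/
theorem exists_closed (b : K1 → K1) : ∃ δ : K1, Order.IsSuccLimit δ ∧ ∀ ξ < δ, b ξ < δ := by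
  have hstep : ∀ x : K1, ∃ u, x < u ∧ ∀ ξ ≤ x, b ξ < u := by
    intro x
    obtain ⟨u, hu⟩ := exists_bound (insert x (b '' Set.Iic x))
      (((countable_Iic x).image b).insert x)
    exact ⟨u, hu x (Set.mem_insert _ _), fun ξ hξ => hu _ (Or.inr ⟨ξ, hξ, rfl⟩)⟩
  choose h hh1 hh2 using hstep
  obtain ⟨x0, _⟩ := exists_bound ∅ Set.countable_empty
  let d : ℕ → K1 := fun n => Nat.rec x0 (fun _ y => h y) n
  have hd : ∀ n, d (n + 1) = h (d n) := fun n => rfl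
  have hne : {u : K1 | ∀ n, d n < u}.Nonempty := by
    obtain ⟨u, hu⟩ := exists_bound (Set.range d) (Set.countable_range d)
    exact ⟨u, fun n => hu _ ⟨n, rfl⟩⟩
  obtain ⟨δ, hδ, hmin⟩ := WellFounded.has_min (wellFounded_lt (α := K1)) _ hne
  have hlow : ∀ ξ < δ, ∃ n, ξ ≤ d n := by
    intro ξ hξ
    by_contra hcon
    push Not at hcon
    exact hmin ξ hcon hξ
  refine ⟨δ, ⟨fun hm => ?_, fun c hc => ?_⟩, fun ξ hξ => ?_⟩
  · exact absurd (hm (hδ 0).le) (not_le.2 (hδ 0))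
  · obtain ⟨n, hn⟩ := hlow c hc.lt
    have h1 : c < d (n + 1) := by rw [hd]; exact hn.trans_lt (hh1 _)
    exact hc.2 h1 (hδ (n + 1))
  · obtain ⟨n, hn⟩ := hlow ξ hξ
    have h1 : b ξ < d (n + 1) := by rw [hd]; exact hh2 _ _ hn
    exact h1.trans (hδ (n + 1))

/-- the pressing down lemma -/
theorem press (ρ : K1 → K1) (hρ : ∀ α, Order.IsSuccLimit α → ρ α < α) :
    ∃ ξ, ¬ {α | Order.IsSuccLimit α ∧ ρ α = ξ}.Countable := by
  by_contra hcon
  push Not at hcon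
  choose b hb using fun ξ => exists_bound _ (hcon ξ)
  obtain ⟨δ, hδ1, hδ2⟩ := exists_closed b
  have h1 := hb (ρ δ) δ ⟨hδ1, rfl⟩
  exact absurd (h1.trans (hδ2 _ (hρ δ hδ1))) (lt_irrefl _)

/-- ladders -/
theorem exists_ladder (α : K1) (hα : Order.IsSuccLimit α) : ∃ C : Set K1, (∀ ξ ∈ C, ξ < α) ∧
    (∀ η < α, ∃ ξ ∈ C, η ≤ ξ) ∧ ∀ η < α, {ξ ∈ C | ξ < η}.Finite := by
  have hne : Nonempty (Set.Iio α) := by
    have := hα.1
    rw [isMin_iff_forall_not_lt] at this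
    push Not at this
    obtain ⟨b, hb⟩ := this
    exact ⟨⟨b, hb⟩⟩
  have hcount : Countable (Set.Iio α) := countable_Iio α
  obtain ⟨a, ha⟩ := exists_surjective_nat (Set.Iio α)
  have key : ∀ η < α, ∃ n, η ≤ (a n).1 ∧ ∀ m < n, (a m).1 < η := by
    intro η hη
    obtain ⟨n0, hn0⟩ := ha ⟨η, hη⟩
    have hex : ∃ n, η ≤ (a n).1 := ⟨n0, by rw [hn0]⟩
    classical
    refine ⟨Nat.find hex, Nat.find_spec hex, fun m hm => ?_⟩
    exact not_le.1 (Nat.find_min hex hm)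
  refine ⟨{x | ∃ n, (a n).1 = x ∧ ∀ m < n, (a m).1 < (a n).1}, ?_, fun η hη => ?_,
    fun η hη => ?_⟩
  · rintro ξ ⟨n, rfl, _⟩
    exact (a n).2
  · obtain ⟨n, hn1, hn2⟩ := key η hη
    exact ⟨(a n).1, ⟨n, rfl, fun m hm => (hn2 m hm).trans_le hn1⟩, hn1⟩
  · obtain ⟨n0, hn1, _⟩ := key η hη
    refine ((Set.finite_lt_nat n0).image fun n => (a n).1).subset ?_
    rintro ξ ⟨⟨n, rfl, hn⟩, hξ⟩
    refine ⟨n, ?_, rfl⟩
    by_contra hcon
    have hcon' : n0 ≤ n := not_lt.1 hcon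
    rcases Nat.lt_or_eq_of_le hcon' with h | h
    · exact absurd (hn1.trans_lt (hn n0 h)) (not_lt.2 hξ.le)
    · subst h; exact absurd hξ (not_lt.2 hn1)

open Classical in
/-- a ground model ladder system -/
noncomputable def Cg (α : K1) : Set K1 :=
  if h : Order.IsSuccLimit α then (exists_ladder α h).choose else ∅

theorem Cg_spec {α : K1} (h : Order.IsSuccLimit α) : (∀ ξ ∈ Cg α, ξ < α) ∧
    (∀ η < α, ∃ ξ ∈ Cg α, η ≤ ξ) ∧ ∀ η < α, {ξ ∈ Cg α | ξ < η}.Finite := by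
  rw [Cg, dif_pos h]
  exact (exists_ladder α h).choose_spec

theorem Cg_infinite {α : K1} (h : Order.IsSuccLimit α) : (Cg α).Infinite := by
  intro hfin
  obtain ⟨h1, h2, _⟩ := Cg_spec h
  have hne : Nonempty (Set.Iio α) := by
    have := h.1
    rw [isMin_iff_forall_not_lt] at this
    push Not at this
    obtain ⟨b, hb⟩ := this
    exact ⟨⟨b, hb⟩⟩
  obtain ⟨⟨x, hx⟩⟩ := hne
  obtain ⟨ξ0, hξ0, _⟩ := h2 x hx
  obtain ⟨m, hm, hmax⟩ := hfin.exists_maximalFor id _ ⟨ξ0, hξ0⟩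
  obtain ⟨y, hy1, hy2⟩ : ∃ y, m < y ∧ y < α := by
    by_contra hcon
    push Not at hcon
    exact h.2 m ⟨h1 m hm, fun y hy => not_lt.2 (hcon y hy)⟩
  obtain ⟨ξ1, hξ1, hyξ⟩ := h2 y hy2
  have := hmax hξ1 (hy1.le.trans hyξ)
  exact absurd (hy1.trans_le hyξ) (not_lt.2 this)

variable {J L : Type} {g : L → K1 → K1 → ℕ → Set (Rep J L)} [LinearOrder J] [WellFoundedLT J]

/-- the Cohen colouring added at `i` -/
def fC (g : L → K1 → K1 → ℕ → Set (Rep J L)) (i : J) (α ξ : K1) (k : ℕ) : Set (Cd g) :=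
  {p | ξ ∈ Cg α ∧ ∃ v, p.1.f i (.co α ξ) = some v ∧ v.2 = k}

theorem down_fC (i : J) (α ξ : K1) (k : ℕ) : Down (fC g i α ξ k) := by
  rintro p ⟨h0, v, h1, h2⟩ q hq
  exact ⟨h0, v, (hq i).2 _ (by simp) v h1, h2⟩

theorem fC_unique {p : Cd g} {i : J} {α ξ : K1} {k k' : ℕ} (h : p ∈ meets (fC g i α ξ k))
    (h' : p ∈ meets (fC g i α ξ k')) : k = k' := by
  obtain ⟨q1, hq1, _, v, h1, h2⟩ := exists_of_meets (down_fC i α ξ k) h
  obtain ⟨q2, hq2, _, v', h3, h4⟩ := exists_of_meets (down_fC i α ξ k') (down_meets _ _ h' q1 hq1)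
  have h5 := (hq2 i).2 _ (by simp) v h1
  rw [h3] at h5
  rw [← h2, ← h4, Option.some.inj h5]

theorem isLadder (i : J) (p : Cd g) : p ∈ IsLadderColouring (fC g i) := by
  classical
  intro α hα
  obtain ⟨h1, h2, h3⟩ := Cg_spec hα
  have hin : ∀ {q : Cd g} {ξ k}, q ∈ meets (fC g i α ξ k) → ξ ∈ Cg α := by
    intro q ξ k h
    obtain ⟨_, _, h', _⟩ := exists_of_meets (down_fC i α ξ k) h
    exact h'
  refine ⟨⟨fun ξ k => mem_fimp.2 fun q _ h => ⟨q, le_rfl, h1 ξ (hin h)⟩,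
    fun ξ k k' => mem_fimp.2 fun q _ h => ⟨q, le_rfl, fC_unique h.1 h.2⟩⟩,
    fun η hη => mem_fex.2 fun q _ => ?_, fun η hη => ?_⟩
  · obtain ⟨ξ, hξ, hηξ⟩ := h2 η hη
    by_cases hn : q.1.f i (.co α ξ) = none
    · obtain ⟨r, hr, hr', _⟩ := add_co q hn 0
      exact ⟨r, hr, ξ, mem_fex_of_mem 0 (down_fand (down_fground _) (down_meets _))
        ⟨hηξ, meets_of_mem ⟨hξ, _, hr', rfl⟩⟩⟩
    · obtain ⟨v, hv⟩ := Option.ne_none_iff_exists'.1 hn
      exact ⟨q, le_rfl, ξ, mem_fex_of_mem v.2 (down_fand (down_fground _) (down_meets _))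
        ⟨hηξ, meets_of_mem ⟨hξ, v, hv, rfl⟩⟩⟩
  · refine mem_fex_of_mem (h3 η hη).toFinset (down_fall fun _ => down_fall fun _ => down_fimp _ _)
      fun ξ k => mem_fimp.2 fun q _ h => ⟨q, le_rfl, ?_⟩
    show ξ ∈ (h3 η hη).toFinset
    rw [Set.Finite.mem_toFinset]
    exact ⟨hin h.2, h.1⟩

/-! ### Names decided below a coordinate -/

/-- the truth value of the name is decided by conditions below `i` -/
def DecB (i : J) (N : Set (Cd g)) : Prop :=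
  ∃ A : Set (Cd g), (∀ a ∈ A, Below a.1 i) ∧ (∀ a ∈ A, a ∈ meets N ∨ a ∈ fnot (meets N)) ∧
    ∀ p, ∃ a ∈ A, ∃ s, s ≤ a ∧ s ≤ p

theorem exists_decB {κ : Cardinal.{0}} (hκ : ℵ₀ ≤ κ)
    (hcof : ∀ S : Set J, #S ≤ κ → ∃ b, ∀ s ∈ S, s < b) {ι : Type} (hι : #ι ≤ κ)
    (N : ι → Set (Cd g)) : ∃ b : J, ∀ i, b ≤ i → ∀ x, DecB i (N x) := by
  choose A hA1 hA2 hA3 using fun x => exists_antichain
    {q : Cd g | q ∈ meets (N x) ∨ q ∈ fnot (meets (N x))}
  obtain ⟨b, hb⟩ := exists_below hκ hcof (A := ⋃ x, A x) (by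
    refine (mk_iUnion_le_sum_mk).trans ?_
    refine (Cardinal.sum_le_sum _ (fun _ => ℵ₀) fun x => ?_).trans ?_
    · exact Cardinal.le_aleph0_iff_set_countable.2 (hA2 x)
    · rw [Cardinal.sum_const']
      exact (mul_le_mul' hι hκ).trans (mul_eq_self hκ).le)
  refine ⟨b, fun i hi x => ⟨A x, fun a ha => hb a (Set.mem_iUnion.2 ⟨x, ha⟩) i hi,
    fun a ha => hA1 x ha, fun p => ?_⟩⟩
  obtain ⟨q, hqp, hq⟩ : ∃ q ≤ p, q ∈ meets (N x) ∨ q ∈ fnot (meets (N x)) := by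
    by_cases h : p ∈ fnot (meets (N x))
    · exact ⟨p, le_rfl, Or.inr h⟩
    · simp only [fnot, Set.mem_ofPred_eq, not_forall, not_not] at h
      obtain ⟨q', hq', h'⟩ := h
      exact ⟨q', hq', Or.inl h'⟩
  obtain ⟨a, ha, s, hs1, hs2⟩ := hA3 x q hq
  exact ⟨a, ha, s, hs1, hs2.trans hqp⟩

theorem resP_le {r q : Cd g} {i : J} (h : r ≤ q) (hq : Below q.1 i) : resP r i ≤ q := by
  intro i'
  by_cases hi : i' < i
  · exact Le_res_left (h i') hi
  · exact Le_of_none g fun τ => hq i' (not_lt.1 hi) τ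

/-- a decided statement forced by `r` is already forced by the part of an extension of `r`
below `i` -/
theorem dec_forced {i : J} {N : Set (Cd g)} (h : DecB i N) {r : Cd g} (hr : r ∈ meets N) :
    ∃ s ≤ r, resP s i ∈ meets N := by
  obtain ⟨A, h1, h2, h3⟩ := h
  obtain ⟨a, ha, s, hs1, hs2⟩ := h3 r
  refine ⟨s, hs2, ?_⟩
  rcases h2 a ha with h4 | h4
  · exact down_meets _ _ h4 _ (resP_le hs1 (h1 a ha))
  · exact absurd (down_meets _ _ hr s hs2) (h4 s hs1)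

theorem resP_mono {r q : Cd g} (h : r ≤ q) (i : J) : resP r i ≤ resP q i := by
  intro i'
  by_cases hi : i' < i
  · exact Le_res_left ((Le_congr_right g (res_lt hi)).2 (h i')) hi
  · exact Le_of_none g fun τ => res_ge (not_lt.1 hi) τ

theorem glue_resP {r p : Cd g} (h : r ≤ p) (i : J) : ∃ s : Cd g, s ≤ p ∧ s ≤ resP r i ∧
    ∀ i', i ≤ i' → s.1.f i' = p.1.f i' := by
  have h3 : ∀ i', i' < i → Le g i' (resP r i).1 p.1 := fun i' hi => Le_res_left (h i') hi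
  exact ⟨glueP (resP r i) p i h3, glueP_le h3, glueP_le_left h3 (below_res r.1 i),
    fun i' hi => glue_ge hi⟩

/-! ### Countably many nodes of each level -/

/-- a named function with domain a subset takes only countably many values -/
theorem countable_values {X : Type} (E : X → Set (Cd g)) (a : Cd g)
    (h : a ∈ fall fun x => fall fun y => fimp (fand (meets (E x)) (meets (E y)))
      (fground (x = y))) : {x | ∃ s ≤ a, s ∈ meets (E x)}.Countable := by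
  by_contra hcon
  have hcon' : ¬ Countable {x | ∃ s ≤ a, s ∈ meets (E x)} := hcon
  choose f hf1 hf2 using fun y : {x | ∃ s ≤ a, s ∈ meets (E x)} => y.2
  obtain ⟨y, y', hne, s, hs1, hs2⟩ := cond_ccc f hcon'
  apply hne
  apply Subtype.ext
  obtain ⟨r, _, hr⟩ := mem_fimp.1 (h y.1 y'.1) s (hs1.trans (hf1 y))
    ⟨down_meets _ _ (hf2 y) s hs1, down_meets _ _ (hf2 y') s hs2⟩
  exact hr

theorem countable_nodes {ht : K1 → K1 → Set (Cd g)} {r : Cd g} (h : r ∈ CountableLevels ht)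
    (ξ : K1) : {t | ∃ s ≤ r, s ∈ meets (ht t ξ)}.Countable := by
  obtain ⟨A, hA1, hA2, hA3⟩ := exists_antichain {q : Cd g | q ≤ r ∧ ∃ E : ℕ → K1 → Set (Cd g),
    q ∈ fand
      (fall fun n => fall fun x => fall fun y =>
        fimp (fand (meets (E n x)) (meets (E n y))) (fground (x = y)))
      (fall fun x => fimp (meets (ht x ξ)) (fex fun n => meets (E n x)))}
  have hsub : {t | ∃ s ≤ r, s ∈ meets (ht t ξ)} ⊆ ⋃ a ∈ A, ⋃ n : ℕ,
      {t | ∃ E : ℕ → K1 → Set (Cd g), (∃ h : a ∈ A, E = (hA1 h).2.choose) ∧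
        ∃ s ≤ a, s ∈ meets (E n t)} := by
    rintro t ⟨s, hs, hst⟩
    obtain ⟨q, hq, E, hE⟩ := mem_fex.1 (h ξ) s hs
    obtain ⟨a, ha, u, hu1, hu2⟩ := hA3 q ⟨hq.trans hs, E, hE⟩
    have hspec := (hA1 ha).2.choose_spec
    obtain ⟨u', hu', hu''⟩ := mem_fimp.1 (hspec.2 t) u hu1
      (down_meets _ _ hst u (hu2.trans hq))
    obtain ⟨u3, hu3, n, hn⟩ := mem_fex.1 hu'' u' le_rfl
    simp only [Set.mem_iUnion]
    exact ⟨a, ha, n, _, ⟨ha, rfl⟩, u3, hu3.trans (hu'.trans hu1), hn⟩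
  refine Set.Countable.mono hsub (hA2.biUnion fun a ha => Set.countable_iUnion fun n => ?_)
  have hspec := (hA1 ha).2.choose_spec
  refine (countable_values ((hA1 ha).2.choose n) a (hspec.1 n)).mono ?_
  rintro t ⟨E, ⟨_, rfl⟩, s, hs, hst⟩
  exact ⟨s, hs, hst⟩

/-! ### The main argument -/

theorem no_uniformization {i : J} {lt ht : K1 → K1 → Set (Cd g)}
    (hlt : ∀ x y, DecB i (lt x y)) (hht : ∀ x y, DecB i (ht x y)) {r : Cd g}
    (hT : r ∈ IsTree lt ht) (hC : r ∈ CountableLevels ht) (φ : K1 → ℕ → Set (Cd g))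
    (hU : r ∈ Uniformizes lt ht (fC g i) φ) : False := by
  classical
  have step : ∀ α : K1, Order.IsSuccLimit α → ∃ (w : Cd g) (t ξ : K1), w ≤ r ∧ ξ < α ∧
      ξ ∈ Cg α ∧ w.1.f i (.co α ξ) = none ∧ w ∈ meets (ht t ξ) ∧
      ∀ k, ∀ u ≤ w, u ∈ meets (fC g i α ξ k) → ∃ u' ≤ u, u' ∈ meets (φ t k) := by
    intro α hα
    obtain ⟨r1, hr1, s, hs⟩ := mem_fex.1 (hT.2.2.2 α) r le_rfl
    obtain ⟨r2, hr2, h2⟩ := mem_fimp.1 (hU.2 s α hα) r1 hr1 hs
    obtain ⟨r3, hr3, B, hB⟩ := mem_fex.1 h2 r2 le_rfl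
    obtain ⟨ξ, hξ, hξ'⟩ : ∃ ξ ∈ Cg α, ξ ∉ B ∧ r3.1.f i (.co α ξ) = none := by
      have hfin : ((B : Set K1) ∪ {ξ | r3.1.f i (.co α ξ) ≠ none}).Finite := by
        refine B.finite_toSet.union ?_
        refine (fin_at r3.1 i).preimage (f := fun ξ => Tag.co α ξ) ?_
        intro x _ y _ h
        simpa using h
      obtain ⟨ξ, h1, h2⟩ := ((Cg_infinite hα).sdiff hfin).nonempty
      rw [Set.mem_union, not_or] at h2
      refine ⟨ξ, h1, h2.1, ?_⟩
      by_contra h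
      exact h2.2 h
    have hξα : ξ < α := (Cg_spec hα).1 ξ hξ
    have hs3 : r3 ∈ meets (ht s α) := down_meets _ _ hs r3 (hr3.trans hr2)
    have h3r : r3 ≤ r := hr3.trans (hr2.trans hr1)
    obtain ⟨r4, hr4, h4⟩ := mem_fimp.1 (hT.2.2.1 s ξ α) r3 h3r ⟨hs3, hξα⟩
    obtain ⟨r5, hr5, t, ht1, ht2⟩ := mem_fex.1 h4 r4 le_rfl
    obtain ⟨r6, hr6, h6⟩ := dec_forced (hlt t s) ht1
    obtain ⟨r7, hr7, h7⟩ := dec_forced (hht t ξ) (down_meets _ _ ht2 r6 hr6)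
    have h73 : r7 ≤ r3 := hr7.trans (hr6.trans (hr5.trans hr4))
    obtain ⟨w, hw1, hw2, hw3⟩ := glue_resP h73 i
    refine ⟨w, t, ξ, hw1.trans h3r, hξα, hξ, ?_, down_meets _ _ h7 w hw2, fun k u hu hk => ?_⟩
    · rw [hw3 i le_rfl]; exact hξ'.2
    · refine mem_fimp.1 (hB ξ hξ'.1 k t) u (hu.trans hw1) ⟨hk, ?_, ?_⟩
      · exact down_meets _ _ h6 u (hu.trans (hw2.trans (resP_mono hr7 i)))
      · exact down_meets _ _ h7 u (hu.trans hw2)
  have : Nonempty K1 := let ⟨x0, _⟩ := exists_bound ∅ Set.countable_empty; ⟨x0⟩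
  choose! w t ξ hw hξα hξC hnone hht' hφ using step
  obtain ⟨ξ0, hξ0⟩ := press ξ hξα
  obtain ⟨t0, ht0⟩ : ∃ t0, ¬ {α | Order.IsSuccLimit α ∧ ξ α = ξ0 ∧ t α = t0}.Countable := by
    by_contra hcon
    push Not at hcon
    apply hξ0
    have hsub : {α | Order.IsSuccLimit α ∧ ξ α = ξ0} ⊆
        ⋃ t0 ∈ {t | ∃ s ≤ r, s ∈ meets (ht t ξ0)},
          {α | Order.IsSuccLimit α ∧ ξ α = ξ0 ∧ t α = t0} := by
      rintro α ⟨h1, h2⟩
      simp only [Set.mem_iUnion]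
      refine ⟨t α, ⟨w α, hw α h1, ?_⟩, h1, h2, rfl⟩
      rw [← h2]; exact hht' α h1
    exact Set.Countable.mono hsub ((countable_nodes hC ξ0).biUnion fun t0 _ => hcon t0)
  have hY : ¬ Countable {α // α ∈ {α | Order.IsSuccLimit α ∧ ξ α = ξ0 ∧ t α = t0}} := ht0
  obtain ⟨α, α', hne, hag, hR1, hR2⟩ := exists_agree_cd
    (fun y : {α // α ∈ {α | Order.IsSuccLimit α ∧ ξ α = ξ0 ∧ t α = t0}} => w y.1)
    (fun y => {(i, Tag.co y.1 (ξ y.1))}) (fun _ => Set.finite_singleton _)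
    (by
      rintro y x hx
      rw [Set.mem_singleton_iff] at hx
      rw [hx]
      exact hnone y.1 y.2.1) hY
  obtain ⟨u, hu1, hu2, hu3⟩ := exists_union _ _ hag
  have hne' : α.1 ≠ α'.1 := fun h => hne (Subtype.ext h)
  have hn1 : u.1.f i (.co α.1 (ξ α.1)) = none :=
    hu3 _ _ (hnone α.1 α.2.1) (hR1 _ (Set.mem_singleton _))
  have hn2 : u.1.f i (.co α'.1 (ξ α'.1)) = none :=
    hu3 _ _ (hR2 _ (Set.mem_singleton _)) (hnone α'.1 α'.2.1)
  obtain ⟨u1, hu1', h1, h1ne, _⟩ := add_co u hn1 0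
  have hn2' : u1.1.f i (.co α'.1 (ξ α'.1)) = none := by
    rw [h1ne _ (by
      intro h
      simp only [Tag.co.injEq] at h
      exact hne' h.1.symm)]
    exact hn2
  obtain ⟨u2, hu2', h2, _, _⟩ := add_co u1 hn2' 1
  have hm1 : u2 ∈ meets (fC g i α.1 (ξ α.1) 0) :=
    down_meets _ _ (meets_of_mem (N := fC g i α.1 (ξ α.1) 0) (p := u1)
      ⟨hξC α.1 α.2.1, _, h1, rfl⟩) u2 hu2'
  have hm2 : u2 ∈ meets (fC g i α'.1 (ξ α'.1) 1) :=
    meets_of_mem ⟨hξC α'.1 α'.2.1, _, h2, rfl⟩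
  have hule : u2 ≤ u := hu2'.trans hu1'
  obtain ⟨v1, hv1, hv1'⟩ := hφ α.1 α.2.1 0 u2 (hule.trans hu1) hm1
  obtain ⟨v2, hv2, hv2'⟩ := hφ α'.1 α'.2.1 1 v1 (hv1.trans (hule.trans hu2))
    (down_meets _ _ hm2 v1 hv1)
  rw [α.2.2.2] at hv1'
  rw [α'.2.2.2] at hv2'
  have hfun : v2 ∈ IsFun φ :=
    down_IsFun φ r hU.1 v2 (hv2.trans (hv1.trans (hule.trans (hu1.trans (hw α.1 α.2.1)))))
  have := IsFun.unique hfun (down_meets _ _ hv1' v2 hv2) hv2'
  exact absurd this (by norm_num)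

/-- the family of all Cohen colourings is bad -/
theorem bad {κ : Cardinal.{0}} (hκ : ℵ_ 1 ≤ κ)
    (hcof : ∀ S : Set J, #S ≤ κ → ∃ b, ∀ s ∈ S, s < b) (p : Cd g) :
    p ∈ fnot (NotBad (fC g : J → K1 → K1 → ℕ → Set (Cd g))) := by
  intro q _ hq
  obtain ⟨q1, _, lt, h1⟩ := mem_fex.1 hq q le_rfl
  obtain ⟨q2, hq2, ht, ⟨⟨hT, hC, _⟩, _⟩, hF⟩ := mem_fex.1 h1 q1 le_rfl
  have hκ0 : ℵ₀ ≤ κ := (aleph0_le_aleph 1).trans hκ
  obtain ⟨b, hb⟩ := exists_decB (g := g) hκ0 hcof (ι := (K1 × K1) ⊕ (K1 × K1)) (by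
    rw [mk_sum, mk_prod, lift_id, lift_id, mk_K1,
      mul_eq_self (aleph0_le_aleph 1), add_eq_self (aleph0_le_aleph 1)]
    exact hκ) (fun x => Sum.elim (fun y => lt y.1 y.2) (fun y => ht y.1 y.2) x)
  obtain ⟨q3, hq3, φ, hφ⟩ := mem_fex.1 (hF b) q2 le_rfl
  refine no_uniformization (i := b) (fun x y => hb b le_rfl (Sum.inl (x, y)))
    (fun x y => hb b le_rfl (Sum.inr (x, y))) (r := q3) ?_ ?_ φ hφ
  · have hd : Down (IsTree lt ht) := down_fand
      (down_fand (down_IsFun _) (down_fall fun _ => down_fall fun _ => down_fall fun _ =>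
        down_fimp _ _))
      (down_fand (down_fand
        (down_fall fun _ => down_fall fun _ => down_fall fun _ => down_fall fun _ => down_fimp _ _)
        (down_fall fun _ => down_fall fun _ => down_fall fun _ => down_fall fun _ =>
          down_fimp _ _))
        (down_fand (down_fall fun _ => down_fall fun _ => down_fall fun _ => down_fimp _ _)
          (down_fall fun _ => down_fex _)))
    exact hd _ hT _ hq3
  · exact down_fall (fun _ => down_fex _) _ hC _ hq3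

end Pool.Agent.Helper126.Lam.Cohen
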