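import Mathlib
import Pool.Agent.Helper126.Lam.Cohen

/-!
# Small families are uniformized on a generic tree
-/

namespace Pool.Agent.Helper126.Lam.Book

open Cardinal Pool.Agent.Helper126.Lam.Forc Pool.Agent.Helper126.Lam.Poset
  Pool.Agent.Helper126.Lam.Insert Pool.Agent.Helper126.Lam.Dense Pool.Agent.Helper126.Lam.Ccc
  Pool.Agent.Helper126.Lam.Names Pool.Agent.Helper126.Lam.Cohen

set_option linter.unusedSectionVars false

section down

variable {P : Type} [Preorder P]

theorem down_IsLadderColouring (G : K1 → K1 → ℕ → Set P) : Down (IsLadderColouring G) :=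
  down_fall fun _ => down_fall fun _ =>
    down_fand
      (down_fand (down_fall fun _ => down_fall fun _ => down_fimp _ _)
        (down_fall fun _ => down_fall fun _ => down_fall fun _ => down_fimp _ _))
      (down_fand (down_fall fun _ => down_fall fun _ => down_fex _)
        (down_fall fun _ => down_fall fun _ => down_fex _))

theorem down_IsTree (lt ht : K1 → K1 → Set P) : Down (IsTree lt ht) :=
  down_fand
    (down_fand (down_IsFun _) (down_fall fun _ => down_fall fun _ => down_fall fun _ =>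
      down_fimp _ _))
    (down_fand (down_fand
      (down_fall fun _ => down_fall fun _ => down_fall fun _ => down_fall fun _ => down_fimp _ _)
      (down_fall fun _ => down_fall fun _ => down_fall fun _ => down_fall fun _ =>
        down_fimp _ _))
      (down_fand (down_fall fun _ => down_fall fun _ => down_fall fun _ => down_fimp _ _)
        (down_fall fun _ => down_fex _)))

theorem down_IsAronszajn (lt ht : K1 → K1 → Set P) : Down (IsAronszajn lt ht) :=
  down_fand (down_IsTree lt ht) (down_fand (down_fall fun _ => down_fex _) (down_fnot _))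

theorem down_Pruned (lt ht : K1 → K1 → Set P) : Down (Pruned lt ht) :=
  down_fall fun _ => down_fall fun _ => down_fall fun _ => down_fimp _ _

theorem down_Uniformizes (lt ht : K1 → K1 → Set P) (G : K1 → K1 → ℕ → Set P)
    (φ : K1 → ℕ → Set P) : Down (Uniformizes lt ht G φ) :=
  down_fand (down_IsFun _) (down_fall fun _ => down_fall fun _ => down_fall fun _ =>
    down_fimp _ _)

end down

variable {J L : Type} {g : L → K1 → K1 → ℕ → Set (Rep J L)} [LinearOrder J] [WellFoundedLT J]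

/-- a representative valid below `j`, as a condition -/
theorem exists_cd {j : J} {r : Rep J L} (hr : r ∈ (Data g j).V) : ∃ r' : Cd g, r'.1 = r := by
  rw [mem_V] at hr
  refine ⟨⟨r, fun i => ?_⟩, rfl⟩
  by_cases hi : i < j
  · exact hr.2 i hi
  · exact Vl_none fun τ => hr.1 i (not_lt.1 hi) τ

theorem le_of_below {j : J} {r a : Cd g} (h : ∀ i, i < j → Le g i r.1 a.1) (ha : Below a.1 j) :
    r ≤ a := by
  intro i
  by_cases hi : i < j
  · exact h i hi
  · exact Le_of_none g fun τ => ha i (not_lt.1 hi) τ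

theorem notBad {κ : Cardinal.{0}} (hκ : ℵ_ 1 ≤ κ)
    (hcof : ∀ S : Set J, #S ≤ κ → ∃ b, ∀ s ∈ S, s < b)
    (hg : ∀ N : K1 → K1 → ℕ → Set (Rep J L), (∀ α ξ k, (N α ξ k).Countable) → ∃ β, g β = N)
    {E : Type} (hE : #E ≤ κ) (G : E → K1 → K1 → ℕ → Set (Cd g)) (q : Cd g)
    (hq : ∀ e, q ∈ IsLadderColouring (G e)) : q ∈ NotBad G := by
  classical
  have hκ0 : ℵ₀ ≤ κ := (aleph0_le_aleph 1).trans hκ
  choose A hA1 hA2 hA3 using fun (e : E) (α ξ : K1) (k : ℕ) =>
    exists_antichain {a : Cd g | a ≤ q ∧ a ∈ meets (G e α ξ k)}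
  obtain ⟨b, hb⟩ := exists_below hκ0 hcof
    (A := ⋃ x : E × K1 × K1 × ℕ, A x.1 x.2.1 x.2.2.1 x.2.2.2) (by
      refine (mk_iUnion_le_sum_mk).trans ?_
      refine (Cardinal.sum_le_sum _ (fun _ => ℵ₀) fun x => ?_).trans ?_
      · exact Cardinal.le_aleph0_iff_set_countable.2 (hA2 _ _ _ _)
      · rw [Cardinal.sum_const']
        refine (mul_le_mul' ?_ hκ0).trans (mul_eq_self hκ0).le
        simp only [mk_prod, lift_id, mk_K1, mk_nat]
        refine (mul_le_mul' hE ?_).trans (mul_eq_self hκ0).le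
        refine (mul_le_mul' hκ ?_).trans (mul_eq_self hκ0).le
        exact (mul_le_mul' hκ hκ0).trans (mul_eq_self hκ0).le)
  have hbelow : ∀ e α ξ k, ∀ a ∈ A e α ξ k, Below a.1 b := fun e α ξ k a ha =>
    hb a (Set.mem_iUnion.2 ⟨(e, α, ξ, k), ha⟩) b le_rfl
  let N : E → K1 → K1 → ℕ → Set (Rep J L) := fun e α ξ k =>
    if Order.IsSuccLimit α then Subtype.val '' A e α ξ k else ∅
  have hNc : ∀ e α ξ k, (N e α ξ k).Countable := by
    intro e α ξ k
    by_cases h : Order.IsSuccLimit α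
    · simp only [N, if_pos h]; exact (hA2 e α ξ k).image _
    · simp only [N, if_neg h]; exact Set.countable_empty
  have hN : ∀ {e α ξ k x}, x ∈ N e α ξ k → Order.IsSuccLimit α ∧ ∃ a ∈ A e α ξ k, a.1 = x := by
    intro e α ξ k x hx
    by_cases h : Order.IsSuccLimit α
    · simp only [N, if_pos h] at hx; exact ⟨h, hx⟩
    · simp only [N, if_neg h] at hx; exact absurd hx (Set.notMem_empty _)
  choose β hβ using fun e => hg (N e) (hNc e)
  have hOK : ∀ e, OKn (g (β e)) (Data g b) := by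
    intro e
    rw [hβ]
    refine ⟨fun α ξ k k' r hr x hx x' hx' h1 h2 => ?_, fun α η hη r hr => ?_⟩
    · obtain ⟨hα, a, ha, rfl⟩ := hN hx
      obtain ⟨_, a', ha', rfl⟩ := hN hx'
      obtain ⟨r', rfl⟩ := exists_cd hr
      rw [le_D] at h1 h2
      have h3 : r' ≤ a := le_of_below h1 (hbelow _ _ _ _ a ha)
      have h4 : r' ≤ a' := le_of_below h2 (hbelow _ _ _ _ a' ha')
      obtain ⟨h5, h6⟩ := hA1 _ _ _ _ ha
      obtain ⟨h7, h8⟩ := hA1 _ _ _ _ ha'
      obtain ⟨u, _, hu⟩ := mem_fimp.1 ((hq e α hα).1.2 ξ k k') r' (h3.trans h5)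
        ⟨down_meets _ _ h6 r' h3, down_meets _ _ h8 r' h4⟩
      exact hu
    · obtain ⟨r', rfl⟩ := exists_cd hr
      by_cases hcomp : Order.IsSuccLimit α ∧ ∃ s, s ≤ r' ∧ s ≤ q
      · obtain ⟨hα, s, hs1, hs2⟩ := hcomp
        obtain ⟨s', hs', B, hB⟩ := mem_fex.1 ((hq e α hα).2.2 η hη) s hs2
        refine ⟨res s'.1 b, res_mem_V s' b, ?_, B, fun ξ hξ hξB k x hx hc => ?_⟩
        · rw [le_D]
          intro i hi
          exact Le_res_left ((hs'.trans hs1) i) hi
        · obtain ⟨_, a, ha, rfl⟩ := hN hx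
          have hc' : CC g b s'.1 a.1 := (CC_congr g fun i' h' => res_lt h').1 hc
          obtain ⟨u, hu1, hu2⟩ := (CC_iff_compat (hbelow _ _ _ _ a ha)).1 hc'
          obtain ⟨v, _, hv⟩ := mem_fimp.1 (hB ξ k) u hu1
            ⟨hξ, down_meets _ _ (hA1 _ _ _ _ ha).2 u hu2⟩
          exact hξB hv
      · refine ⟨r'.1, hr, ?_, ∅, fun ξ _ _ k x hx hc => ?_⟩
        · rw [le_D]
          exact fun i _ => Le_of_eq g rfl
        · obtain ⟨hα, a, ha, rfl⟩ := hN hx
          obtain ⟨u, hu1, hu2⟩ := (CC_iff_compat (hbelow _ _ _ _ a ha)).1 hc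
          have hu3 : u ≤ a := hu2
          exact hcomp ⟨hα, u, hu1, hu3.trans (hA1 _ _ _ _ ha).1⟩
  refine mem_fex_of_mem (Tlt g b) (down_fex _) (mem_fex_of_mem (Tht g) ?_
    ⟨⟨isAronszajn b q, pruned b q⟩, fun e => mem_fex_of_mem (Tph g b (β e)) (down_Uniformizes _ _ _ _)
      (uniformizes b (β e) (hOK e) (G e) q fun α hα ξ k r hr hm => ?_)⟩)
  · exact down_fand (down_fand (down_IsAronszajn _ _) (down_Pruned _ _))
      (down_fall fun _ => down_fex _)
  · obtain ⟨a, ha, s, hs1, hs2⟩ := hA3 e α ξ k r ⟨hr, hm⟩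
    refine ⟨a.1, ?_, s, hs2, hs1⟩
    rw [hβ]
    simp only [N, if_pos hα]
    exact ⟨a, ha, rfl⟩

end Pool.Agent.Helper126.Lam.Book
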