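import Mathlib
import Pool.Agent.Helper126.Lam.Book

/-!
# Bookkeeping and preservation of cardinals
-/

namespace Pool.Agent.Helper126.Lam.Arith

open Cardinal Pool.Agent.Helper126.Lam.Forc Pool.Agent.Helper126.Lam.Poset
  Pool.Agent.Helper126.Lam.Ccc Pool.Agent.Helper126.Lam.Names Pool.Agent.Helper126.Lam.Insert

set_option linter.unusedSectionVars false

theorem mk_arrow_le {A X : Type} {κ : Cardinal.{0}} (hκ : ℵ₀ ≤ κ) (hA : #A ≤ κ)
    (hX : #X ≤ 2 ^ κ) : #(A → X) ≤ 2 ^ κ := by
  rw [← power_def]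
  calc #X ^ #A ≤ (2 ^ κ) ^ #A := power_le_power_right hX
    _ = 2 ^ (κ * #A) := (power_mul).symm
    _ ≤ 2 ^ κ := power_le_power_left two_ne_zero ((mul_le_mul' le_rfl hA).trans
        (mul_eq_self hκ).le)

theorem mk_tag_le {L : Type} {lam : Cardinal.{0}} (hlam : ℵ_ 1 ≤ lam) (hL : #L ≤ lam) :
    #(Tag L) ≤ lam := by
  have h0 : ℵ₀ ≤ lam := (aleph0_le_aleph 1).trans hlam
  let f : Tag L → (Node ⊕ (L × Node)) ⊕ ((L × Node) ⊕ (K1 × K1)) := fun τ => match τ with
    | .nd x => Sum.inl (Sum.inl x)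
    | .ph β x => Sum.inl (Sum.inr (β, x))
    | .pm β x => Sum.inr (Sum.inl (β, x))
    | .co x y => Sum.inr (Sum.inr (x, y))
  have hf : Function.Injective f := by
    intro τ τ' h
    cases τ <;> cases τ' <;> simp_all [f]
  refine (mk_le_of_injective hf).trans ?_
  have hK : #K1 ≤ lam := by rw [mk_K1]; exact hlam
  have hN : #Node ≤ lam := by
    rw [mk_prod, lift_id, lift_id, mk_nat]
    exact (mul_le_mul' hK h0).trans (mul_eq_self h0).le
  have hLN : #(L × Node) ≤ lam := by
    rw [mk_prod, lift_id, lift_id]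
    exact (mul_le_mul' hL hN).trans (mul_eq_self h0).le
  have hKK : #(K1 × K1) ≤ lam := by
    simp only [mk_prod, lift_id]
    exact (mul_le_mul' hK hK).trans (mul_eq_self h0).le
  simp only [mk_sum, lift_id]
  have h2 : lam + lam = lam := add_eq_self h0
  calc #Node + #(L × Node) + (#(L × Node) + #(K1 × K1)) ≤ (lam + lam) + (lam + lam) :=
        add_le_add (add_le_add hN hLN) (add_le_add hLN hKK)
    _ = lam := by rw [h2, h2]

theorem mk_rep_le {J L : Type} {lam : Cardinal.{0}} (hlam : ℵ_ 1 ≤ lam) (hL : #L ≤ lam)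
    (hJ : #J ≤ lam) : #(Rep J L) ≤ lam := by
  classical
  have h0 : ℵ₀ ≤ lam := (aleph0_le_aleph 1).trans hlam
  have hfin : ∀ r : Rep J L, {x : (J × Tag L) × Val | r.f x.1.1 x.1.2 = some x.2}.Finite := by
    intro r
    refine Set.Finite.of_finite_image (f := Prod.fst) (r.fin.subset ?_) ?_
    · rintro _ ⟨x, hx, rfl⟩
      show r.f x.1.1 x.1.2 ≠ none
      rw [hx]; simp
    · rintro ⟨x, v⟩ hx ⟨y, w⟩ hy hxy
      have hxy' : x = y := hxy
      subst hxy'
      have h1 : r.f x.1 x.2 = some v := hx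
      have h2 : r.f x.1 x.2 = some w := hy
      rw [h1] at h2
      rw [Option.some.inj h2]
  have hinj : Function.Injective fun r : Rep J L => (hfin r).toFinset := by
    intro r r' h
    have h1 : ∀ i τ v, r.f i τ = some v ↔ r'.f i τ = some v := by
      intro i τ v
      have := congrArg (fun S => ((i, τ), v) ∈ S) h
      simpa using this
    ext1
    funext i τ
    cases hr : r.f i τ with
    | some v => exact ((h1 i τ v).1 hr).symm
    | none =>
      cases hr' : r'.f i τ with
      | some v =>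
        rw [← h1] at hr'
        rw [hr] at hr'
        exact absurd hr' (by simp)
      | none => rfl
  refine (mk_le_of_injective hinj).trans ?_
  have hX : #((J × Tag L) × Val) ≤ lam := by
    have hK : #K1 ≤ lam := by rw [mk_K1]; exact hlam
    have hN : #Node ≤ lam := by
      rw [mk_prod, lift_id, lift_id, mk_nat]
      exact (mul_le_mul' hK h0).trans (mul_eq_self h0).le
    have hne : Nonempty K1 := by
      rw [← mk_ne_zero_iff, mk_K1]
      exact (aleph_pos 1).ne'
    have hNinf : Infinite Node := by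
      show Infinite (K1 × ℕ)
      exact Prod.infinite_of_right
    have hV : #Val ≤ lam := by
      rw [mk_prod, lift_id, lift_id, mk_finset_of_infinite, mk_nat]
      exact (mul_le_mul' hN h0).trans (mul_eq_self h0).le
    simp only [mk_prod, lift_id] at hV ⊢
    exact (mul_le_mul' ((mul_le_mul' hJ (mk_tag_le hlam hL)).trans (mul_eq_self h0).le) hV).trans
      (mul_eq_self h0).le
  rcases finite_or_infinite ((J × Tag L) × Val) with h | h
  · have : Finite (Finset ((J × Tag L) × Val)) := inferInstance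
    exact ((mk_lt_aleph0).le).trans h0
  · rw [mk_finset_of_infinite]; exact hX

/-- countable sets are enumerated -/
theorem exists_enum {X : Type} {S : Set X} (hS : S.Countable) :
    ∃ h : ℕ → Option X, ∀ x, x ∈ S ↔ ∃ n, h n = some x := by
  by_cases hne : S.Nonempty
  · obtain ⟨f, rfl⟩ := hS.exists_eq_range hne
    refine ⟨fun n => some (f n), fun x => ?_⟩
    simp
  · rw [Set.not_nonempty_iff_eq_empty] at hne
    subst hne
    exact ⟨fun _ => none, by simp⟩

/-- the bookkeeping function -/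
theorem exists_book (J : Type) (hJ : ℵ_ 1 ≤ #J) :
    ∃ g : Set J → K1 → K1 → ℕ → Set (Rep J (Set J)),
      ∀ N : K1 → K1 → ℕ → Set (Rep J (Set J)), (∀ α ξ k, (N α ξ k).Countable) →
        ∃ β, g β = N := by
  have hJ0 : ℵ₀ ≤ #J := (aleph0_le_aleph 1).trans hJ
  have hlam : ℵ_ 1 ≤ 2 ^ #J := hJ.trans (cantor _).le
  have h0 : ℵ₀ ≤ 2 ^ #J := (aleph0_le_aleph 1).trans hlam
  have hR : #(Rep J (Set J)) ≤ 2 ^ #J := mk_rep_le hlam (by rw [mk_set]) (cantor _).le
  have hO : #(Option (Rep J (Set J))) ≤ 2 ^ #J := by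
    rw [mk_option]
    exact (add_le_add hR (one_le_aleph0.trans h0)).trans (add_eq_self h0).le
  have hK : #K1 ≤ #J := by rw [mk_K1]; exact hJ
  have hNat : #ℕ ≤ #J := by rw [mk_nat]; exact hJ0
  have hNm : #(K1 → K1 → ℕ → ℕ → Option (Rep J (Set J))) ≤ #(Set J) := by
    rw [mk_set]
    exact mk_arrow_le hJ0 hK (mk_arrow_le hJ0 hK (mk_arrow_le hJ0 hNat (mk_arrow_le hJ0 hNat hO)))
  obtain ⟨F⟩ := hNm
  let f := Function.invFun F
  have hf : ∀ N, f (F N) = N := Function.leftInverse_invFun F.injective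
  refine ⟨fun β α ξ k => {r | ∃ n, f β α ξ k n = some r}, fun N hN => ?_⟩
  choose h hh using fun α ξ k => exists_enum (hN α ξ k)
  refine ⟨F h, ?_⟩
  funext α ξ k
  ext r
  rw [hh α ξ k r]
  simp only [hf, Set.mem_ofPred_eq]

variable {J L : Type} {g : L → K1 → K1 → ℕ → Set (Rep J L)} [LinearOrder J] [WellFoundedLT J]

/-- the pigeonhole principle for conditions -/
theorem exists_compat_same {X Z : Type} (h : #Z * ℵ₀ < #X) (f : X → Cd g) (z : X → Z) :
    ∃ x x', x ≠ x' ∧ z x = z x' ∧ ∃ s, s ≤ f x ∧ s ≤ f x' := by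
  have h1 : ∃ c, ¬ Countable {x // z x = c} := by
    by_contra hcon
    push Not at hcon
    have h2 : #X = Cardinal.sum fun c => #{x // z x = c} := by
      rw [← mk_sigma]
      exact (Equiv.sigmaFiberEquiv z).symm.cardinal_eq
    have h3 : #X ≤ #Z * ℵ₀ := by
      rw [h2]
      refine (Cardinal.sum_le_sum _ (fun _ => ℵ₀) fun c => ?_).trans ?_
      · have := hcon c
        exact mk_le_aleph0
      · rw [Cardinal.sum_const']
    exact absurd h3 (not_le.2 h)
  obtain ⟨c, hc⟩ := h1
  obtain ⟨y, y', hne, hcomp⟩ := cond_ccc (fun x : {x // z x = c} => f x.1) hc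
  exact ⟨y.1, y'.1, fun h => hne (Subtype.ext h), y.2.trans y'.2.symm, hcomp⟩

theorem not_onto {X Z : Type} (hμν : #Z < #X) (hν : ℵ₀ < #X) (p : Cd g) :
    p ∈ fnot (fex fun R : Z → X → Set (Cd g) =>
      fand (IsFun R) (fall fun y => fex fun x => meets (R x y))) := by
  intro q _ hq
  obtain ⟨r, _, R, hR1, hR2⟩ := mem_fex.1 hq q le_rfl
  choose f hf x hx using fun y => mem_fex.1 (hR2 y) r le_rfl
  obtain ⟨y, y', hne, hz, s, hs1, hs2⟩ :=
    exists_compat_same (X := X) (Z := Z) (mul_lt_of_lt hν.le hμν hν) f x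
  apply hne
  refine IsFun.unique (down_IsFun R r hR1 s (hs1.trans (hf y))) (down_meets _ _ (hx y) s hs1) ?_
  rw [hz]
  exact down_meets _ _ (hx y') s hs2

end Pool.Agent.Helper126.Lam.Arith
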